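import Mathlib

/-!
# A dimension count for words in two families of operators
-/

set_option autoImplicit false

namespace Pool.Agent.Helper91.RO

open Module

section

variable {K V ι : Type*} [Field K] [AddCommGroup V] [Module K V] [DecidableEq ι]

/-- Apply the operators along the list: `T0 v` for `v` in `A`, otherwise `T v`. -/
def steps (T0 T : ι → V →ₗ[K] V) (A : Finset ι) : List ι → V → V
  | [], x => x
  | v :: L, x => steps T0 T A L ((if v ∈ A then T0 v else T v) x)

theorem steps_add (T0 T : ι → V →ₗ[K] V) (A : Finset ι) (L : List ι) (x y : V) :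
    steps T0 T A L (x + y) = steps T0 T A L x + steps T0 T A L y := by
  induction L generalizing x y with
  | nil => rfl
  | cons v L ih => rw [steps, steps, steps, map_add, ih]

theorem steps_smul (T0 T : ι → V →ₗ[K] V) (A : Finset ι) (L : List ι) (c : K) (x : V) :
    steps T0 T A L (c • x) = c • steps T0 T A L x := by
  induction L generalizing x with
  | nil => rfl
  | cons v L ih => rw [steps, steps, map_smul, ih]

theorem steps_congr (T0 T : ι → V →ₗ[K] V) (A B : Finset ι) (L : List ι)
    (h : ∀ v ∈ L, v ∈ A ↔ v ∈ B) (x : V) : steps T0 T A L x = steps T0 T B L x := by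
  induction L generalizing x with
  | nil => rfl
  | cons v L ih =>
    rw [steps, steps]
    have h1 := h v List.mem_cons_self
    by_cases hv : v ∈ A
    · rw [if_pos hv, if_pos (h1.1 hv)]
      exact ih (fun u hu => h u (List.mem_cons_of_mem _ hu)) _
    · rw [if_neg hv, if_neg (fun h2 => hv (h1.2 h2))]
      exact ih (fun u hu => h u (List.mem_cons_of_mem _ hu)) _

theorem chain [FiniteDimensional K V] (T0 T : ι → V →ₗ[K] V) (lam : V →ₗ[K] K) (L : List ι)
    (hL : L.Nodup) (hinj : ∀ v ∈ L, Function.Injective (T0 v)) (s : V) (W : Submodule K V)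
    (hW : ∀ x ∈ W, ∀ A, lam (steps T0 T A L x) = 0)
    (hs : ∀ A, (∃ v ∈ L, v ∈ A) → lam (steps T0 T A L s) = 0)
    (hdim : finrank K V ≤ finrank K W + L.length) : lam (steps T0 T ∅ L s) = 0 := by
  induction L generalizing s W with
  | nil =>
    have h1 : W = ⊤ := by
      apply Submodule.eq_top_of_finrank_eq
      apply le_antisymm (Submodule.finrank_le W)
      rwa [List.length_nil, add_zero] at hdim
    exact hW s (h1 ▸ Submodule.mem_top) ∅
  | cons v L ih =>
    have hvL : v ∉ L := (List.nodup_cons.1 hL).1
    by_cases hsW : s ∈ W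
    · exact hW s hsW ∅
    -- words with prescribed choice at `v`
    have e0 : ∀ (A : Finset ι) (x : V), steps T0 T A L (T0 v x) =
        steps T0 T (insert v A) (v :: L) x := by
      intro A x
      rw [steps, if_pos (Finset.mem_insert_self v A)]
      apply steps_congr
      intro u hu
      have huv : u ≠ v := fun h => hvL (h ▸ hu)
      rw [Finset.mem_insert]
      exact ⟨Or.inr, fun h => h.resolve_left huv⟩
    have e1 : ∀ (A : Finset ι) (x : V), steps T0 T A L (T v x) =
        steps T0 T (A.erase v) (v :: L) x := by
      intro A x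
      rw [steps, if_neg (Finset.notMem_erase v A)]
      apply steps_congr
      intro u hu
      have huv : u ≠ v := fun h => hvL (h ▸ hu)
      rw [Finset.mem_erase]
      exact ⟨fun h => ⟨huv, h⟩, fun h => h.2⟩
    have key : lam (steps T0 T ∅ L (T v s)) = 0 := by
      refine ih (List.nodup_cons.1 hL).2 (fun u hu => hinj u (List.mem_cons_of_mem _ hu)) (T v s)
        (Submodule.map (T0 v) (W ⊔ Submodule.span K {s}) ⊔ Submodule.map (T v) W) ?_ ?_ ?_
      · intro x hx A
        obtain ⟨y, hy, z, hz, rfl⟩ := Submodule.mem_sup.1 hx
        obtain ⟨y', hy', rfl⟩ := Submodule.mem_map.1 hy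
        obtain ⟨z', hz', rfl⟩ := Submodule.mem_map.1 hz
        obtain ⟨a, ha, b, hb, rfl⟩ := Submodule.mem_sup.1 hy'
        obtain ⟨c, rfl⟩ := Submodule.mem_span_singleton.1 hb
        rw [steps_add, map_add, map_add (T0 v), steps_add, map_add, map_smul (T0 v), steps_smul,
          map_smul, e0, e0, e1, hW a ha, hW z' hz',
          hs _ ⟨v, List.mem_cons_self, Finset.mem_insert_self v A⟩, smul_zero, add_zero, add_zero]
      · rintro A ⟨u, hu, huA⟩
        rw [e1]
        refine hs _ ⟨u, List.mem_cons_of_mem _ hu, Finset.mem_erase.2 ⟨?_, huA⟩⟩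
        exact fun h => hvL (h ▸ hu)
      · have h1 : finrank K W + 1 ≤ finrank K (W ⊔ Submodule.span K {s} : Submodule K V) := by
          apply Submodule.finrank_lt_finrank_of_lt
          apply lt_of_le_of_ne le_sup_left
          intro h
          apply hsW
          rw [h]
          exact Submodule.mem_sup_right (Submodule.mem_span_singleton_self s)
        have h2 : finrank K (Submodule.map (T0 v) (W ⊔ Submodule.span K {s})) =
            finrank K (W ⊔ Submodule.span K {s} : Submodule K V) :=
          (Submodule.equivMapOfInjective _ (hinj v List.mem_cons_self) _).finrank_eq.symm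
        have h3 : finrank K (Submodule.map (T0 v) (W ⊔ Submodule.span K {s})) ≤
            finrank K (Submodule.map (T0 v) (W ⊔ Submodule.span K {s}) ⊔ Submodule.map (T v) W :
              Submodule K V) := Submodule.finrank_mono le_sup_left
        rw [List.length_cons] at hdim
        omega
    rw [steps, if_neg (Finset.notMem_empty v)]
    exact key

end

end Pool.Agent.Helper91.RO
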