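import Mathlib

/-!
# Preprocessed read-once formulas
-/

set_option autoImplicit false

namespace Pool.Agent.Helper91.RO

open MvPolynomial

variable {n : ℕ}

/-- `Rof s f`: the polynomial `f` is computed by a read-once formula whose leaves are constants and
univariate polynomials of distinct variables; `s` is the set of the variables at the leaves. -/
inductive Rof {n : ℕ} : Finset (Fin n) → MvPolynomial (Fin n) ℂ → Prop
  | const (c : ℂ) : Rof ∅ (C c)
  | leaf (i : Fin n) (u : Polynomial ℂ) : Rof {i} (Polynomial.aeval (X i) u)
  | add {s t : Finset (Fin n)} {f g : MvPolynomial (Fin n) ℂ} (hst : Disjoint s t) (hf : Rof s f)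
      (hg : Rof t g) : Rof (s ∪ t) (f + g)
  | mul {s t : Finset (Fin n)} {f g : MvPolynomial (Fin n) ℂ} (hst : Disjoint s t) (hf : Rof s f)
      (hg : Rof t g) : Rof (s ∪ t) (f * g)

/-- Homomorphisms only depend on the values of the variables of the formula. -/
theorem Rof.congr {s : Finset (Fin n)} {f : MvPolynomial (Fin n) ℂ} (hf : Rof s f)
    {A : Type*} [CommSemiring A] [Algebra ℂ A] (φ ψ : MvPolynomial (Fin n) ℂ →ₐ[ℂ] A)
    (h : ∀ i ∈ s, φ (X i) = ψ (X i)) : φ f = ψ f := by
  induction hf with
  | const c => rw [← MvPolynomial.algebraMap_eq, AlgHom.commutes, AlgHom.commutes]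
  | leaf i u =>
    rw [← Polynomial.aeval_algHom_apply, ← Polynomial.aeval_algHom_apply,
      h i (Finset.mem_singleton_self i)]
  | add hst hf hg ihf ihg =>
    rw [map_add, map_add, ihf fun i hi => h i (Finset.mem_union_left _ hi),
      ihg fun i hi => h i (Finset.mem_union_right _ hi)]
  | mul hst hf hg ihf ihg =>
    rw [map_mul, map_mul, ihf fun i hi => h i (Finset.mem_union_left _ hi),
      ihg fun i hi => h i (Finset.mem_union_right _ hi)]

/-- Enlarging the set of variables. -/
theorem Rof.mono {s t : Finset (Fin n)} {f : MvPolynomial (Fin n) ℂ} (hf : Rof s f)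
    (hst : s ⊆ t) : Rof t f := by
  classical
  have key : ∀ u : Finset (Fin n), Disjoint s u → Rof (s ∪ u) f := by
    intro u
    induction u using Finset.induction_on with
    | empty => intro _; rwa [Finset.union_empty]
    | insert a u ha ih =>
      intro hd
      rw [Finset.disjoint_insert_right] at hd
      have h1 := ih hd.2
      have h2 := Rof.add (s := s ∪ u) (t := {a}) (f := f)
        (g := Polynomial.aeval (X a) (0 : Polynomial ℂ))
        (by
          rw [Finset.disjoint_singleton_right, Finset.mem_union]
          rintro (h | h)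
          · exact hd.1 h
          · exact ha h) h1 (Rof.leaf a 0)
      rw [map_zero, add_zero] at h2
      have e : s ∪ insert a u = (s ∪ u) ∪ {a} := by
        ext x
        simp only [Finset.mem_union, Finset.mem_insert, Finset.mem_singleton]
        tauto
      rw [e]
      exact h2
  have h3 := key (t \ s) Finset.disjoint_sdiff
  rwa [Finset.union_sdiff_of_subset hst] at h3

theorem Rof.zero : Rof (∅ : Finset (Fin n)) 0 := by
  have := Rof.const (n := n) 0
  rwa [map_zero] at this

/-- The derivative with respect to a variable which does not occur. -/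
theorem Rof.pderiv_eq_zero {s : Finset (Fin n)} {f : MvPolynomial (Fin n) ℂ} (hf : Rof s f)
    {v : Fin n} (hv : v ∉ s) : pderiv v f = 0 := by
  induction hf with
  | const c => exact pderiv_C
  | leaf i u =>
    have hi : v ≠ i := fun h => hv (Finset.mem_singleton.2 h)
    rw [Polynomial.aeval_def, Polynomial.eval₂_eq_sum_range, map_sum]
    apply Finset.sum_eq_zero
    intro j _
    rw [MvPolynomial.algebraMap_eq, Derivation.leibniz, pderiv_C, smul_zero, add_zero,
      Derivation.leibniz_pow, pderiv_X_of_ne (Ne.symm hi), smul_zero, smul_zero, smul_zero]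
  | add hst hf hg ihf ihg =>
    rw [map_add, ihf fun h => hv (Finset.mem_union_left _ h),
      ihg fun h => hv (Finset.mem_union_right _ h), add_zero]
  | mul hst hf hg ihf ihg =>
    rw [Derivation.leibniz, ihf fun h => hv (Finset.mem_union_left _ h),
      ihg fun h => hv (Finset.mem_union_right _ h), smul_zero, smul_zero, add_zero]

/-- Derivatives of read-once formulas are read-once. -/
theorem Rof.pderiv {s : Finset (Fin n)} {f : MvPolynomial (Fin n) ℂ} (hf : Rof s f)
    (v : Fin n) : Rof s (MvPolynomial.pderiv v f) := by
  induction hf with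
  | const c => rw [pderiv_C]; exact Rof.zero
  | leaf i u =>
    by_cases hi : v = i
    · subst hi
      have e : MvPolynomial.pderiv v (Polynomial.aeval (X v : MvPolynomial (Fin n) ℂ) u) =
          Polynomial.aeval (X v) (Polynomial.derivative u) := by
        rw [Derivation.map_aeval, pderiv_X_self, smul_eq_mul, mul_one]
      rw [e]
      exact Rof.leaf v _
    · have h := (Rof.leaf i u).pderiv_eq_zero (v := v) (fun h => hi (Finset.mem_singleton.1 h))
      rw [h]
      exact Rof.zero.mono (Finset.empty_subset _)
  | @add s t f g hst hf hg ihf ihg =>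
    rw [map_add]
    exact Rof.add hst ihf ihg
  | @mul s t f g hst hf hg ihf ihg =>
    rw [Derivation.leibniz, smul_eq_mul, smul_eq_mul]
    by_cases hv : v ∈ s
    · have h : MvPolynomial.pderiv v g = 0 := hg.pderiv_eq_zero (Finset.disjoint_left.1 hst hv)
      rw [h, mul_zero, zero_add, mul_comm]
      exact Rof.mul hst ihf hg
    · have h : MvPolynomial.pderiv v f = 0 := hf.pderiv_eq_zero hv
      rw [h, mul_zero, add_zero]
      exact Rof.mul hst hf ihg

/-- Splitting off one variable. -/
theorem Rof.split_var {s : Finset (Fin n)} {f : MvPolynomial (Fin n) ℂ} (hf : Rof s f)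
    (v : Fin n) : ∃ (u : Polynomial ℂ) (α β : MvPolynomial (Fin n) ℂ),
      Rof (s.erase v) α ∧ Rof (s.erase v) β ∧ f = Polynomial.aeval (X v) u * α + β := by
  induction hf with
  | const c =>
    refine ⟨0, 0, C c, ?_, ?_, ?_⟩
    · exact Rof.zero.mono (Finset.empty_subset _)
    · exact (Rof.const c).mono (Finset.empty_subset _)
    · rw [map_zero, zero_mul, zero_add]
  | leaf i u =>
    by_cases hi : i = v
    · subst hi
      refine ⟨u, C 1, C 0, (Rof.const 1).mono (Finset.empty_subset _),
        (Rof.const 0).mono (Finset.empty_subset _), ?_⟩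
      rw [map_one, map_zero, mul_one, add_zero]
    · refine ⟨0, 0, Polynomial.aeval (X i) u, ?_, ?_, ?_⟩
      · exact Rof.zero.mono (Finset.empty_subset _)
      · refine (Rof.leaf i u).mono ?_
        intro j hj
        rw [Finset.mem_singleton] at hj
        subst hj
        exact Finset.mem_erase.2 ⟨hi, Finset.mem_singleton_self _⟩
      · rw [map_zero, zero_mul, zero_add]
  | @add s t f g hst hf hg ihf ihg =>
    obtain ⟨u, α, β, hα, hβ, e⟩ := ihf
    obtain ⟨u', α', β', hα', hβ', e'⟩ := ihg
    have hs : s.erase v ⊆ (s ∪ t).erase v := Finset.erase_subset_erase v Finset.subset_union_left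
    have ht : t.erase v ⊆ (s ∪ t).erase v := Finset.erase_subset_erase v Finset.subset_union_right
    have hu : s.erase v ∪ t.erase v ⊆ (s ∪ t).erase v := Finset.union_subset hs ht
    by_cases hv : v ∈ s
    · have hvt : v ∉ t := Finset.disjoint_left.1 hst hv
      refine ⟨u, α, β + g, hα.mono hs, ?_, ?_⟩
      · refine (Rof.add (hst.mono_left (Finset.erase_subset v s)) hβ hg).mono ?_
        exact Finset.union_subset hs ((Finset.erase_eq_of_notMem hvt).symm.subset.trans ht)
      · rw [e]; ring
    · refine ⟨u', α', f + β', hα'.mono ht, ?_, ?_⟩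
      · refine (Rof.add (hst.mono_right (Finset.erase_subset v t)) hf hβ').mono ?_
        exact Finset.union_subset ((Finset.erase_eq_of_notMem hv).symm.subset.trans hs) ht
      · rw [e']; ring
  | @mul s t f g hst hf hg ihf ihg =>
    obtain ⟨u, α, β, hα, hβ, e⟩ := ihf
    obtain ⟨u', α', β', hα', hβ', e'⟩ := ihg
    have hs : s.erase v ⊆ (s ∪ t).erase v := Finset.erase_subset_erase v Finset.subset_union_left
    have ht : t.erase v ⊆ (s ∪ t).erase v := Finset.erase_subset_erase v Finset.subset_union_right
    by_cases hv : v ∈ s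
    · have hvt : v ∉ t := Finset.disjoint_left.1 hst hv
      have hsub : s.erase v ∪ t ⊆ (s ∪ t).erase v :=
        Finset.union_subset hs ((Finset.erase_eq_of_notMem hvt).symm.subset.trans ht)
      refine ⟨u, α * g, β * g, ?_, ?_, ?_⟩
      · exact (Rof.mul (hst.mono_left (Finset.erase_subset v s)) hα hg).mono hsub
      · exact (Rof.mul (hst.mono_left (Finset.erase_subset v s)) hβ hg).mono hsub
      · rw [e]; ring
    · have hsub : s ∪ t.erase v ⊆ (s ∪ t).erase v :=
        Finset.union_subset ((Finset.erase_eq_of_notMem hv).symm.subset.trans hs) ht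
      refine ⟨u', f * α', f * β', ?_, ?_, ?_⟩
      · exact (Rof.mul (hst.mono_right (Finset.erase_subset v t)) hf hα').mono hsub
      · exact (Rof.mul (hst.mono_right (Finset.erase_subset v t)) hf hβ').mono hsub
      · rw [e']; ring

end Pool.Agent.Helper91.RO
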