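import Mathlib
import Pool.Agent.Helper91.RO.Chain

/-!
# Polynomials in few products of 2 x 2 matrices
-/

set_option autoImplicit false
set_option linter.unusedSectionVars false
set_option linter.style.haveILetI false

namespace Pool.Agent.Helper91.RO

open MvPolynomial Module

section

variable {K ι κ : Type*} [Field K] [DecidableEq ι] [Fintype κ] [DecidableEq κ]

/-- Linear substitution in pairs of variables. -/
noncomputable def lsub (M : κ → Matrix (Fin 2) (Fin 2) K) :
    MvPolynomial (κ × Fin 2) K →ₐ[K] MvPolynomial (κ × Fin 2) K :=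
  aeval fun x => ∑ β, C (M x.1 x.2 β) * X (x.1, β)

theorem aeval_lsub (M : κ → Matrix (Fin 2) (Fin 2) K) (Z : κ → Fin 2 → K)
    (g : MvPolynomial (κ × Fin 2) K) :
    aeval (fun x : κ × Fin 2 => Z x.1 x.2) (lsub M g) =
      aeval (fun x : κ × Fin 2 => ((M x.1).mulVec (Z x.1)) x.2) g := by
  rw [lsub, MvPolynomial.comp_aeval_apply]
  congr 2
  funext x
  rw [map_sum, Matrix.mulVec, dotProduct]
  apply Finset.sum_congr rfl
  intro β _
  rw [map_mul, aeval_C, aeval_X]
  rfl

theorem totalDegree_X_le' {σ R : Type*} [CommRing R] [Nontrivial R] (x : σ) :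
    (X x : MvPolynomial σ R).totalDegree ≤ 1 := by
  rw [totalDegree_X]

theorem totalDegree_aeval_le {σ τ : Type*} {R : Type*} [CommRing R] [IsDomain R]
    (h : σ → MvPolynomial τ R) (hh : ∀ x, (h x).totalDegree ≤ 1) (g : MvPolynomial σ R) :
    (aeval h g).totalDegree ≤ g.totalDegree := by
  classical
  rw [aeval_def, eval₂_eq]
  refine totalDegree_finsetSum_le fun d hd => ?_
  refine (totalDegree_mul _ _).trans ?_
  rw [MvPolynomial.algebraMap_eq, totalDegree_C, zero_add]
  refine (totalDegree_finsetProd _ _).trans ?_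
  refine le_trans (Finset.sum_le_sum fun x _ => ?_) (le_totalDegree hd)
  refine (totalDegree_pow _ _).trans ?_
  calc d x * (h x).totalDegree ≤ d x * 1 := Nat.mul_le_mul_left _ (hh x)
    _ = d x := mul_one _

theorem lsub_totalDegree (M : κ → Matrix (Fin 2) (Fin 2) K) (g : MvPolynomial (κ × Fin 2) K) :
    (lsub M g).totalDegree ≤ g.totalDegree := by
  apply totalDegree_aeval_le
  intro x
  refine totalDegree_finsetSum_le fun β _ => ?_
  refine (totalDegree_mul _ _).trans ?_
  rw [totalDegree_C, zero_add]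
  exact totalDegree_X_le' _

theorem lsub_lsub (M N : κ → Matrix (Fin 2) (Fin 2) K) (g : MvPolynomial (κ × Fin 2) K) :
    lsub N (lsub M g) = lsub (fun i => M i * N i) g := by
  have h : (lsub N).comp (lsub M) = lsub (fun i => M i * N i) := by
    apply MvPolynomial.algHom_ext
    intro x
    rw [AlgHom.comp_apply]
    have e0 : lsub M (X x) = ∑ β, C (M x.1 x.2 β) * X (x.1, β) := by rw [lsub, aeval_X]
    have e0' : lsub (fun i => M i * N i) (X x) =
        ∑ β, C ((M x.1 * N x.1) x.2 β) * X (x.1, β) := by rw [lsub, aeval_X]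
    rw [e0, e0', map_sum]
    have e1 : ∀ β : Fin 2, lsub N (C (M x.1 x.2 β) * X (x.1, β)) =
        ∑ γ, C (M x.1 x.2 β * N x.1 β γ) * (X (x.1, γ) : MvPolynomial (κ × Fin 2) K) := by
      intro β
      rw [map_mul, lsub, aeval_C, aeval_X, MvPolynomial.algebraMap_eq, Finset.mul_sum]
      apply Finset.sum_congr rfl
      intro γ _
      rw [C_mul, mul_assoc]
    simp only [e1]
    rw [Finset.sum_comm]
    apply Finset.sum_congr rfl
    intro γ _
    rw [← Finset.sum_mul, ← map_sum, Matrix.mul_apply]
  exact congrArg (fun φ => φ g) h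

theorem lsub_one (g : MvPolynomial (κ × Fin 2) K) :
    lsub (fun _ : κ => (1 : Matrix (Fin 2) (Fin 2) K)) g = g := by
  have h : lsub (fun _ : κ => (1 : Matrix (Fin 2) (Fin 2) K)) = AlgHom.id K _ := by
    apply MvPolynomial.algHom_ext
    intro x
    rw [lsub, aeval_X, AlgHom.id_apply, Finset.sum_eq_single x.2]
    · rw [Matrix.one_apply_eq, map_one, one_mul]
    · intro β _ hβ
      rw [Matrix.one_apply_ne hβ.symm, map_zero, zero_mul]
    · intro h
      exact absurd (Finset.mem_univ _) h
  rw [h]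
  rfl

theorem lsub_injective {M : κ → Matrix (Fin 2) (Fin 2) K} (hM : ∀ i, (M i).det ≠ 0) :
    Function.Injective (lsub M) := by
  intro g h hgh
  have h1 := congrArg (lsub fun i => (M i)⁻¹) hgh
  rw [lsub_lsub, lsub_lsub] at h1
  have e : (fun i => M i * (M i)⁻¹) = fun _ : κ => (1 : Matrix (Fin 2) (Fin 2) K) := by
    funext i
    exact Matrix.mul_nonsing_inv _ (isUnit_iff_ne_zero.2 (hM i))
  rw [e, lsub_one, lsub_one] at h1
  exact h1

/-- The substitution on polynomials of bounded degree. -/
noncomputable def lop (δ : ℕ) (M : κ → Matrix (Fin 2) (Fin 2) K) :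
    restrictTotalDegree (κ × Fin 2) K δ →ₗ[K] restrictTotalDegree (κ × Fin 2) K δ :=
  (lsub M).toLinearMap.restrict fun g hg => by
    rw [mem_restrictTotalDegree] at hg ⊢
    exact (lsub_totalDegree M g).trans hg

theorem coe_lop (δ : ℕ) (M : κ → Matrix (Fin 2) (Fin 2) K)
    (g : restrictTotalDegree (κ × Fin 2) K δ) : (lop δ M g : MvPolynomial (κ × Fin 2) K) =
      lsub M g := rfl

theorem lin_chain (δ : ℕ) (L : List ι) (hL : L.Nodup) (M M0 : ι → κ → Matrix (Fin 2) (Fin 2) K)
    (hdet : ∀ v ∈ L, ∀ i, (M0 v i).det ≠ 0) (a b : κ → Fin 2 → K) (G : MvPolynomial κ K)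
    (hG : G.totalDegree ≤ δ)
    (hlen : finrank K (restrictTotalDegree (κ × Fin 2) K δ) ≤ L.length)
    (hz : ∀ A : Finset ι, (∃ v ∈ L, v ∈ A) →
      aeval (fun i => a i ⬝ᵥ ((L.map fun v => if v ∈ A then M0 v i else M v i).prod.mulVec (b i))) G
        = 0) :
    aeval (fun i => a i ⬝ᵥ ((L.map fun v => M v i).prod.mulVec (b i))) G = 0 := by
  classical
  have hG' : aeval (fun i => ∑ α, C (a i α) * (X (i, α) : MvPolynomial (κ × Fin 2) K)) G ∈
      restrictTotalDegree (κ × Fin 2) K δ := by
    rw [mem_restrictTotalDegree]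
    refine (totalDegree_aeval_le _ ?_ G).trans hG
    intro x
    refine totalDegree_finsetSum_le fun β _ => ?_
    refine (totalDegree_mul _ _).trans ?_
    rw [totalDegree_C, zero_add]
    exact totalDegree_X_le' _
  let s : restrictTotalDegree (κ × Fin 2) K δ := ⟨_, hG'⟩
  let lam : restrictTotalDegree (κ × Fin 2) K δ →ₗ[K] K :=
    (aeval (fun x : κ × Fin 2 => b x.1 x.2)).toLinearMap.comp (Submodule.subtype _)
  have hlam : ∀ g : restrictTotalDegree (κ × Fin 2) K δ, lam g =
      aeval (fun x : κ × Fin 2 => b x.1 x.2) (g : MvPolynomial (κ × Fin 2) K) := fun g => rfl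
  have key : ∀ (A : Finset ι) (L : List ι) (g : restrictTotalDegree (κ × Fin 2) K δ),
      lam (steps (fun v => lop δ (M0 v)) (fun v => lop δ (M v)) A L g) =
        aeval (fun x : κ × Fin 2 =>
          ((L.map fun v => if v ∈ A then M0 v x.1 else M v x.1).prod.mulVec (b x.1)) x.2)
          (g : MvPolynomial (κ × Fin 2) K) := by
    intro A L
    induction L with
    | nil =>
      intro g
      rw [steps, hlam]
      simp only [List.map_nil, List.prod_nil, Matrix.one_mulVec]
    | cons v L ih =>
      intro g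
      rw [steps, ih]
      have e : ((if v ∈ A then lop δ (M0 v) else lop δ (M v)) g :
          MvPolynomial (κ × Fin 2) K) = lsub (fun i => if v ∈ A then M0 v i else M v i) g := by
        by_cases hv : v ∈ A
        · simp only [if_pos hv, coe_lop]
        · simp only [if_neg hv, coe_lop]
      have e2 := aeval_lsub (fun i => if v ∈ A then M0 v i else M v i) (fun i =>
        (L.map fun v => if v ∈ A then M0 v i else M v i).prod.mulVec (b i)) g
      rw [e, e2]
      simp only [List.map_cons, List.prod_cons, ← Matrix.mulVec_mulVec]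
  have hsv : ∀ Z : κ → Fin 2 → K, aeval (fun x : κ × Fin 2 => Z x.1 x.2)
      (s : MvPolynomial (κ × Fin 2) K) = aeval (fun i => a i ⬝ᵥ Z i) G := by
    intro Z
    change aeval (fun x : κ × Fin 2 => Z x.1 x.2)
      (aeval (fun i => ∑ α, C (a i α) * (X (i, α) : MvPolynomial (κ × Fin 2) K)) G) = _
    rw [MvPolynomial.comp_aeval_apply]
    congr 2
    funext i
    rw [map_sum]
    apply Finset.sum_congr rfl
    intro α _
    rw [map_mul, aeval_C, aeval_X]
    rfl
  have h := chain (fun v => lop δ (M0 v)) (fun v => lop δ (M v)) lam L hL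
    (fun v hv g h hgh => Subtype.ext (lsub_injective (hdet v hv) (by
      rw [← coe_lop, ← coe_lop]
      exact congrArg Subtype.val hgh))) s ⊥ (by
      intro x hx A
      rw [Submodule.mem_bot] at hx
      subst hx
      rw [key]
      exact map_zero _) (by
      intro A hA
      rw [key, hsv fun i => (L.map fun v => if v ∈ A then M0 v i else M v i).prod.mulVec (b i)]
      exact hz A hA) (by
      rw [finrank_bot, zero_add]
      exact hlen)
  rw [key, hsv fun i => (L.map fun v => if v ∈ (∅ : Finset ι) then M0 v i else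
    M v i).prod.mulVec (b i)] at h
  simpa only [Finset.notMem_empty, if_false] using h

/-- The dimension bound. -/
theorem finrank_le (δ q : ℕ) (hq : Fintype.card κ ≤ q) :
    finrank K (restrictTotalDegree (κ × Fin 2) K δ) ≤ (δ + 1) ^ (2 * q) := by
  classical
  have h1 : finrank K (restrictTotalDegree (κ × Fin 2) K δ) ≤
      finrank K (restrictDegree (κ × Fin 2) K δ) :=
    Submodule.finrank_mono (restrictTotalDegree_le_restrictDegree _ _ _)
  refine h1.trans ?_
  let φ : {d : κ × Fin 2 →₀ ℕ | ∀ i, d i ≤ δ} ↪ (κ × Fin 2 → Fin (δ + 1)) :=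
    ⟨fun d i => ⟨d.1 i, Nat.lt_succ_of_le (d.2 i)⟩, by
      intro d e hde
      apply Subtype.ext
      apply Finsupp.ext
      intro i
      exact congrArg Fin.val (congrFun hde i)⟩
  haveI : Finite {d : κ × Fin 2 →₀ ℕ | ∀ i, d i ≤ δ} := Finite.of_injective φ φ.injective
  haveI : Fintype {d : κ × Fin 2 →₀ ℕ | ∀ i, d i ≤ δ} := Fintype.ofFinite _
  have h2 : finrank K (restrictDegree (κ × Fin 2) K δ) =
      Fintype.card {d : κ × Fin 2 →₀ ℕ | ∀ i, d i ≤ δ} :=
    Module.finrank_eq_card_basis (basisRestrictSupport K _)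
  rw [h2]
  refine (Fintype.card_le_of_embedding φ).trans ?_
  rw [Fintype.card_fun, Fintype.card_fin, Fintype.card_prod, Fintype.card_fin]
  exact Nat.pow_le_pow_right (Nat.succ_pos δ) (by omega)

end

end Pool.Agent.Helper91.RO
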