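import Mathlib
import Pool.Agent.Helper91.RO.Def
import Pool.Agent.Helper91.RO.Lin

/-!
# Read-once formulas as products of 2 x 2 matrices along sequences of variables
-/

set_option autoImplicit false
set_option linter.unusedSectionVars false

namespace Pool.Agent.Helper91.RO

open MvPolynomial

variable {n : ℕ} {F : Type*} [Field F] [Algebra ℂ F] (p : Fin n → F)

/-- Keep the variables of `S`, specialise the others to `p`. -/
noncomputable def res (S : Finset (Fin n)) : MvPolynomial (Fin n) ℂ →ₐ[ℂ] MvPolynomial (Fin n) F :=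
  aeval fun l => if l ∈ S then X l else C (p l)

/-- Specialise the variables of `A`. -/
noncomputable def EA (A : Finset (Fin n)) : MvPolynomial (Fin n) F →ₐ[F] MvPolynomial (Fin n) F :=
  aeval fun l => if l ∈ A then C (p l) else X l

/-- Evaluation at `p`. -/
noncomputable def ev : MvPolynomial (Fin n) F →ₐ[F] F := aeval p

theorem EA_X_mem {A : Finset (Fin n)} {l : Fin n} (h : l ∈ A) : EA p A (X l) = C (p l) := by
  rw [EA, aeval_X, if_pos h]

theorem EA_X_notMem {A : Finset (Fin n)} {l : Fin n} (h : l ∉ A) : EA p A (X l) = X l := by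
  rw [EA, aeval_X, if_neg h]

theorem EA_C (A : Finset (Fin n)) (c : F) : EA p A (C c) = C c := by
  rw [EA, aeval_C, MvPolynomial.algebraMap_eq]

theorem EA_EA (A B : Finset (Fin n)) (g : MvPolynomial (Fin n) F) :
    EA p A (EA p B g) = EA p (A ∪ B) g := by
  have h : (EA p A).comp (EA p B) = EA p (A ∪ B) := by
    apply MvPolynomial.algHom_ext
    intro l
    rw [AlgHom.comp_apply]
    by_cases hB : l ∈ B
    · rw [EA_X_mem p hB, EA_C, EA_X_mem p (Finset.mem_union_right _ hB)]
    · rw [EA_X_notMem p hB]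
      by_cases hA : l ∈ A
      · rw [EA_X_mem p hA, EA_X_mem p (Finset.mem_union_left _ hA)]
      · rw [EA_X_notMem p hA, EA_X_notMem p]
        rw [Finset.mem_union]
        rintro (h | h)
        · exact hA h
        · exact hB h
  exact congrArg (fun φ => φ g) h

theorem EA_empty (g : MvPolynomial (Fin n) F) : EA p ∅ g = g := by
  have h : EA p ∅ = AlgHom.id F _ := by
    apply MvPolynomial.algHom_ext
    intro l
    rw [EA_X_notMem p (Finset.notMem_empty l), AlgHom.id_apply]
  rw [h]
  rfl

theorem EA_eq_self {A : Finset (Fin n)} {g : MvPolynomial (Fin n) F}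
    (h : ∀ v ∈ A, EA p {v} g = g) : EA p A g = g := by
  induction A using Finset.induction_on with
  | empty => exact EA_empty p g
  | insert a A ha ih =>
    have h1 := ih fun v hv => h v (Finset.mem_insert_of_mem hv)
    rw [Finset.insert_eq, ← EA_EA, h1]
    exact h a (Finset.mem_insert_self a A)

theorem EA_mem {A : Finset (Fin n)} {v : Fin n} (hv : v ∈ A) (g : MvPolynomial (Fin n) F) :
    EA p A (EA p {v} g) = EA p A g := by
  rw [EA_EA, Finset.union_eq_left.2 (Finset.singleton_subset_iff.2 hv)]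

theorem EA_comm (u v : Fin n) (g : MvPolynomial (Fin n) F) :
    EA p {u} (EA p {v} g) = EA p {v} (EA p {u} g) := by
  rw [EA_EA, EA_EA, Finset.union_comm]

theorem ev_EA (A : Finset (Fin n)) (g : MvPolynomial (Fin n) F) : ev p (EA p A g) = ev p g := by
  have h : (ev p).comp (EA p A) = ev p := by
    apply MvPolynomial.algHom_ext
    intro l
    rw [AlgHom.comp_apply]
    by_cases hA : l ∈ A
    · rw [EA_X_mem p hA, ev, aeval_C, aeval_X]
      rfl
    · rw [EA_X_notMem p hA]
  exact congrArg (fun φ => φ g) h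

theorem EA_res (S : Finset (Fin n)) (v : Fin n) (f : MvPolynomial (Fin n) ℂ) :
    EA p {v} (res p S f) = res p (S.erase v) f := by
  have h : ((EA p {v}).restrictScalars ℂ).comp (res p S) = res p (S.erase v) := by
    apply MvPolynomial.algHom_ext
    intro l
    rw [AlgHom.comp_apply, AlgHom.restrictScalars_apply, res, aeval_X, res, aeval_X]
    by_cases hS : l ∈ S
    · rw [if_pos hS]
      by_cases hv : l = v
      · subst hv
        rw [EA_X_mem p (Finset.mem_singleton_self l), if_neg (Finset.notMem_erase l S)]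
      · rw [EA_X_notMem p (fun h => hv (Finset.mem_singleton.1 h)),
          if_pos (Finset.mem_erase.2 ⟨hv, hS⟩)]
    · rw [if_neg hS, EA_C, if_neg fun h => hS (Finset.mem_of_mem_erase h)]
  exact congrArg (fun φ => φ f) h

theorem ev_res (S : Finset (Fin n)) (f : MvPolynomial (Fin n) ℂ) :
    ev p (res p S f) = aeval p f := by
  have h : ((ev p).restrictScalars ℂ).comp (res p S) = aeval p := by
    apply MvPolynomial.algHom_ext
    intro l
    rw [AlgHom.comp_apply, AlgHom.restrictScalars_apply, res, aeval_X, aeval_X]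
    by_cases hS : l ∈ S
    · rw [if_pos hS, ev, aeval_X]
    · rw [if_neg hS, ev, aeval_C]
      rfl
  exact congrArg (fun φ => φ f) h

theorem EA_res_rof (S : Finset (Fin n)) {v : Fin n} {s : Finset (Fin n)}
    {f : MvPolynomial (Fin n) ℂ} (hf : Rof s f) (hv : v ∉ s) :
    EA p {v} (res p S f) = res p S f := by
  apply hf.congr (((EA p {v}).restrictScalars ℂ).comp (res p S)) (res p S)
  intro l hl
  have hlv : l ≠ v := fun h => hv (h ▸ hl)
  rw [AlgHom.comp_apply, AlgHom.restrictScalars_apply, EA_res, res, aeval_X, res, aeval_X]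
  by_cases hS : l ∈ S
  · rw [if_pos (Finset.mem_erase.2 ⟨hlv, hS⟩), if_pos hS]
  · rw [if_neg (fun h => hS (Finset.mem_of_mem_erase h)), if_neg hS]

theorem res_univ (f : MvPolynomial (Fin n) ℂ) :
    res p Finset.univ f = map (algebraMap ℂ F) f := by
  have h : res p Finset.univ = mapAlgHom (Algebra.ofId ℂ F) := by
    apply MvPolynomial.algHom_ext
    intro l
    rw [res, aeval_X, if_pos (Finset.mem_univ l), mapAlgHom_apply, map_X]
  rw [h]
  rfl

/-! ### Representations -/

/-- `R` is a product of matrices along the list, each matrix involves only its own variable among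
those of the list and is invertible at `p`. -/
def Rep (L : List (Fin n)) (R : MvPolynomial (Fin n) F) : Prop :=
  ∃ (M : Fin n → Matrix (Fin 2) (Fin 2) (MvPolynomial (Fin n) F))
    (a b : Fin 2 → MvPolynomial (Fin n) F),
    (∀ w ∈ L, ev p (M w).det ≠ 0) ∧
    (∀ w ∈ L, ∀ v ∈ L, v ≠ w → (M w).map (EA p {v}) = M w) ∧
    (∀ v ∈ L, ∀ α, EA p {v} (a α) = a α) ∧ (∀ v ∈ L, ∀ α, EA p {v} (b α) = b α) ∧
    R = a ⬝ᵥ ((L.map M).prod.mulVec b)

theorem Rep.reverse {L : List (Fin n)} {R : MvPolynomial (Fin n) F} (h : Rep p L R) :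
    Rep p L.reverse R := by
  obtain ⟨M, a, b, h1, h2, h3, h4, h5⟩ := h
  refine ⟨fun v => (M v).transpose, b, a, ?_, ?_, ?_, ?_, ?_⟩
  · intro w hw
    rw [Matrix.det_transpose]
    exact h1 w (List.mem_reverse.1 hw)
  · intro w hw v hv hvw
    rw [Matrix.transpose_map, h2 w (List.mem_reverse.1 hw) v (List.mem_reverse.1 hv) hvw]
  · exact fun v hv => h4 v (List.mem_reverse.1 hv)
  · exact fun v hv => h3 v (List.mem_reverse.1 hv)
  · have e : (L.reverse.map fun v => (M v).transpose).prod = (L.map M).prod.transpose := by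
      rw [Matrix.transpose_list_prod, List.map_map, List.map_reverse]
      rfl
    rw [e, h5, Matrix.mulVec_transpose, Matrix.dotProduct_mulVec, dotProduct_comm]

theorem map_mul_inv (v : Fin n) (A B : Matrix (Fin 2) (Fin 2) (MvPolynomial (Fin n) F))
    (hA : A.map (EA p {v}) = A) (hB : B.map (EA p {v}) = B) : (A * B).map (EA p {v}) = A * B := by
  rw [Matrix.map_mul, hA, hB]

theorem map_one_inv (v : Fin n) :
    (1 : Matrix (Fin 2) (Fin 2) (MvPolynomial (Fin n) F)).map (EA p {v}) = 1 :=
  Matrix.map_one _ (map_zero _) (map_one _)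

theorem sublist_aux {L' L : List (Fin n)} (h : L'.Sublist L) (hL : L.Nodup)
    (M : Fin n → Matrix (Fin 2) (Fin 2) (MvPolynomial (Fin n) F))
    (hdet : ∀ w ∈ L, ev p (M w).det ≠ 0) :
    ∃ (A : Matrix (Fin 2) (Fin 2) (MvPolynomial (Fin n) F))
      (M' : Fin n → Matrix (Fin 2) (Fin 2) (MvPolynomial (Fin n) F)),
      ev p A.det ≠ 0 ∧ (∀ w ∈ L', ev p (M' w).det ≠ 0) ∧
      (L.map M).prod = A * (L'.map M').prod ∧
      ∀ v, (∀ w ∈ L, v ≠ w → (M w).map (EA p {v}) = M w) → (v ∈ L' ∨ v ∉ L) →
        A.map (EA p {v}) = A ∧ ∀ w ∈ L', v ≠ w → (M' w).map (EA p {v}) = M' w := by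
  classical
  induction h with
  | slnil =>
    refine ⟨1, M, ?_, ?_, ?_, ?_⟩
    · rw [Matrix.det_one, map_one]
      exact one_ne_zero
    · intro w hw
      exact absurd hw List.not_mem_nil
    · rw [one_mul]
    · intro v _ _
      refine ⟨map_one_inv p v, ?_⟩
      intro w hw
      exact absurd hw List.not_mem_nil
  | @cons L1 L2 u h ih =>
    obtain ⟨hu, hL2⟩ := List.nodup_cons.1 hL
    obtain ⟨A, M', h1, h2, h3, h4⟩ := ih hL2 fun w hw => hdet w (List.mem_cons_of_mem _ hw)
    refine ⟨M u * A, M', ?_, h2, ?_, ?_⟩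
    · rw [Matrix.det_mul, map_mul]
      exact mul_ne_zero (hdet u List.mem_cons_self) h1
    · rw [List.map_cons, List.prod_cons, h3, mul_assoc]
    · intro v hv hvL
      have hvu : v ≠ u := by
        rintro rfl
        rcases hvL with h5 | h5
        · exact hu (h.subset h5)
        · exact h5 List.mem_cons_self
      have h5 := h4 v (fun w hw => hv w (List.mem_cons_of_mem _ hw))
        (hvL.imp id fun h6 h7 => h6 (List.mem_cons_of_mem _ h7))
      exact ⟨map_mul_inv p v _ _ (hv u List.mem_cons_self hvu) h5.1, h5.2⟩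
  | @cons_cons L1 L2 u h ih =>
    obtain ⟨hu, hL2⟩ := List.nodup_cons.1 hL
    have hu1 : u ∉ L1 := fun h5 => hu (h.subset h5)
    obtain ⟨A, M', h1, h2, h3, h4⟩ := ih hL2 fun w hw => hdet w (List.mem_cons_of_mem _ hw)
    have hne : ∀ w ∈ L1, w ≠ u := fun w hw h5 => hu1 (h5 ▸ hw)
    refine ⟨1, Function.update M' u (M u * A), ?_, ?_, ?_, ?_⟩
    · rw [Matrix.det_one, map_one]
      exact one_ne_zero
    · intro w hw
      rcases List.mem_cons.1 hw with rfl | hw
      · rw [Function.update_self, Matrix.det_mul, map_mul]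
        exact mul_ne_zero (hdet w List.mem_cons_self) h1
      · rw [Function.update_of_ne (hne w hw)]
        exact h2 w hw
    · rw [one_mul, List.map_cons, List.prod_cons, List.map_cons, List.prod_cons,
        Function.update_self, h3, mul_assoc]
      congr 3
      apply List.map_congr_left
      intro w hw
      rw [Function.update_of_ne (hne w hw)]
    · intro v hv hvL
      have h5 : v ≠ u → A.map (EA p {v}) = A := fun hvu =>
        (h4 v (fun w hw => hv w (List.mem_cons_of_mem _ hw)) (hvL.imp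
          (fun h6 => (List.mem_cons.1 h6).resolve_left hvu)
          fun h6 h7 => h6 (List.mem_cons_of_mem _ h7))).1
      refine ⟨map_one_inv p v, ?_⟩
      intro w hw hvw
      rcases List.mem_cons.1 hw with rfl | hw
      · rw [Function.update_self]
        exact map_mul_inv p v _ _ (hv w List.mem_cons_self hvw) (h5 hvw)
      · rw [Function.update_of_ne (hne w hw)]
        refine (h4 v (fun w hw => hv w (List.mem_cons_of_mem _ hw)) ?_).2 w hw hvw
        rcases hvL with h6 | h6
        · rcases List.mem_cons.1 h6 with rfl | h6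
          · exact Or.inr hu
          · exact Or.inl h6
        · exact Or.inr fun h7 => h6 (List.mem_cons_of_mem _ h7)

theorem Rep.sublist {L' L : List (Fin n)} {R : MvPolynomial (Fin n) F} (h : Rep p L R)
    (hL : L.Nodup) (hs : L'.Sublist L) : Rep p L' R := by
  obtain ⟨M, a, b, h1, h2, h3, h4, h5⟩ := h
  obtain ⟨A, M', g1, g2, g3, g4⟩ := sublist_aux p hs hL M h1
  have g5 : ∀ v ∈ L', A.map (EA p {v}) = A ∧ ∀ w ∈ L', v ≠ w → (M' w).map (EA p {v}) = M' w :=
    fun v hv => g4 v (fun w hw hvw => h2 w hw v (hs.subset hv) hvw) (Or.inl hv)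
  refine ⟨M', Matrix.vecMul a A, b, g2, ?_, ?_, ?_, ?_⟩
  · intro w hw v hv hvw
    exact (g5 v hv).2 w hw hvw
  · intro v hv α
    have e := (g5 v hv).1
    rw [Matrix.vecMul, dotProduct, map_sum]
    apply Finset.sum_congr rfl
    intro β _
    rw [map_mul, h3 v (hs.subset hv)]
    congr 1
    exact congrFun (congrFun e β) α
  · exact fun v hv => h4 v (hs.subset hv)
  · rw [h5, g3, ← Matrix.mulVec_mulVec, Matrix.dotProduct_mulVec]

end Pool.Agent.Helper91.RO
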