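import Mathlib
import Pool.Agent.Helper91.RO.Rep

/-!
# Long sequences of variables along which a read-once formula is a product of 2 x 2 matrices
-/

set_option autoImplicit false
set_option linter.unusedSectionVars false

namespace Pool.Agent.Helper91.RO

open MvPolynomial

variable {n : ℕ} {F : Type*} [Field F] [Algebra ℂ F] (p : Fin n → F)

/-- The conclusion of the main lemma for the polynomial `R`, the set of variables `s` of the
formula and a subset `V`. -/
def Cat (s V : Finset (Fin n)) (R : MvPolynomial (Fin n) F) : Prop :=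
  ∃ (L : List (Fin n)) (M : Fin n → Matrix (Fin 2) (Fin 2) (MvPolynomial (Fin n) F)),
    L.Nodup ∧ (∀ v ∈ L, v ∈ V) ∧ L ≠ [] ∧ V.card ≤ 2 ^ (L.length - 1) ∧
    (∀ w ∈ L, ev p (M w).det ≠ 0) ∧
    (∀ w ∈ L, ∀ v, v ≠ w → (v ∈ L ∨ v ∉ s) → (M w).map (EA p {v}) = M w) ∧
    (L.map M).prod.mulVec ![0, 1] = ![R, 1]

/-- Unipotent matrix. -/
noncomputable def uni (R : MvPolynomial (Fin n) F) : Matrix (Fin 2) (Fin 2) (MvPolynomial (Fin n) F) :=
  !![1, R; 0, 1]

/-- Diagonal matrix. -/
noncomputable def dia (R : MvPolynomial (Fin n) F) : Matrix (Fin 2) (Fin 2) (MvPolynomial (Fin n) F) :=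
  !![R, 0; 0, 1]

theorem uni_mulVec (R x : MvPolynomial (Fin n) F) : (uni R).mulVec ![x, 1] = ![x + R, 1] := by
  ext i
  fin_cases i <;> simp [uni, Matrix.mulVec, dotProduct, Fin.sum_univ_two]

theorem dia_mulVec (R x : MvPolynomial (Fin n) F) : (dia R).mulVec ![x, 1] = ![x * R, 1] := by
  ext i
  fin_cases i <;> simp [dia, Matrix.mulVec, dotProduct, Fin.sum_univ_two, mul_comm]

theorem uni_det (R : MvPolynomial (Fin n) F) : (uni R).det = 1 := by
  simp [uni, Matrix.det_fin_two]

theorem dia_det (R : MvPolynomial (Fin n) F) : (dia R).det = R := by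
  simp [dia, Matrix.det_fin_two]

theorem uni_map (R : MvPolynomial (Fin n) F) (v : Fin n) (h : EA p {v} R = R) :
    (uni R).map (EA p {v}) = uni R := by
  ext i j
  fin_cases i <;> fin_cases j <;> simp [uni, h]

theorem dia_map (R : MvPolynomial (Fin n) F) (v : Fin n) (h : EA p {v} R = R) :
    (dia R).map (EA p {v}) = dia R := by
  ext i j
  fin_cases i <;> fin_cases j <;> simp [dia, h]

theorem Cat.inv {s V : Finset (Fin n)} {R : MvPolynomial (Fin n) F} (hV : V.Nonempty)
    (hR : ∀ v, (v ∈ V ∨ v ∉ s) → EA p {v} R = R) : Cat p s V R := by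
  classical
  obtain ⟨v0, L', hL⟩ : ∃ v0 L', V.toList = v0 :: L' := by
    cases h : V.toList with
    | nil => exact absurd (Finset.toList_eq_nil.1 h) hV.ne_empty
    | cons a l => exact ⟨a, l, rfl⟩
  have hnd : (v0 :: L').Nodup := hL ▸ V.nodup_toList
  have hmem : ∀ v, v ∈ v0 :: L' ↔ v ∈ V := fun v => by rw [← hL, Finset.mem_toList]
  have hcard : V.card = L'.length + 1 := by rw [← Finset.length_toList, hL, List.length_cons]
  refine ⟨v0 :: L', fun w => if w = v0 then uni R else 1, hnd, fun v hv => (hmem v).1 hv,
    List.cons_ne_nil _ _, ?_, ?_, ?_, ?_⟩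
  · rw [hcard, List.length_cons, Nat.add_sub_cancel]
    exact Nat.lt_two_pow_self
  · intro w _
    dsimp only
    by_cases hw : w = v0
    · rw [if_pos hw, uni_det, map_one]
      exact one_ne_zero
    · rw [if_neg hw, Matrix.det_one, map_one]
      exact one_ne_zero
  · intro w _ v _ hv
    dsimp only
    by_cases hw : w = v0
    · rw [if_pos hw]
      apply uni_map
      exact hR v (hv.imp (fun h => (hmem v).1 h) id)
    · rw [if_neg hw]
      exact map_one_inv p v
  · rw [List.map_cons, List.prod_cons, if_pos rfl]
    have e : (L'.map fun w => if w = v0 then uni R else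
        (1 : Matrix (Fin 2) (Fin 2) (MvPolynomial (Fin n) F))).prod = 1 := by
      apply List.prod_eq_one
      intro x hx
      obtain ⟨w, hw, rfl⟩ := List.mem_map.1 hx
      rw [if_neg]
      rintro rfl
      exact (List.nodup_cons.1 hnd).1 hw
    rw [e, mul_one, uni_mulVec, zero_add]

/-- One gate. -/
theorem Cat.step {s t V W : Finset (Fin n)} {R R' : MvPolynomial (Fin n) F}
    (hst : Disjoint s t) (hVs : V ⊆ s) (hWt : W ⊆ t) (hWV : W.card ≤ V.card) (h : Cat p s V R)
    (A : Matrix (Fin 2) (Fin 2) (MvPolynomial (Fin n) F)) (hA : ev p A.det ≠ 0)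
    (hAt : ∀ v ∉ t, A.map (EA p {v}) = A) (hR : A.mulVec ![R, 1] = ![R', 1]) :
    Cat p (s ∪ t) (V ∪ W) R' := by
  classical
  obtain ⟨L, M, h1, h2, h3, h4, h5, h6, h7⟩ := h
  have hLt : ∀ v ∈ L, v ∉ t := fun v hv => Finset.disjoint_left.1 hst (hVs (h2 v hv))
  rcases W.eq_empty_or_nonempty with rfl | ⟨u, hu⟩
  · -- merge the matrix with the first one
    obtain ⟨v0, L', rfl⟩ : ∃ v0 L', L = v0 :: L' := by
      cases L with
      | nil => exact absurd rfl h3
      | cons a l => exact ⟨a, l, rfl⟩
    have hne : ∀ w ∈ L', w ≠ v0 := by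
      rintro w hw rfl
      exact (List.nodup_cons.1 h1).1 hw
    refine ⟨v0 :: L', Function.update M v0 (A * M v0), h1, fun v hv =>
      Finset.mem_union_left _ (h2 v hv), h3, by rwa [Finset.union_empty], ?_, ?_, ?_⟩
    · intro w hw
      rcases List.mem_cons.1 hw with rfl | hw
      · rw [Function.update_self, Matrix.det_mul, map_mul]
        exact mul_ne_zero hA (h5 w List.mem_cons_self)
      · rw [Function.update_of_ne (hne w hw)]
        exact h5 w (List.mem_cons_of_mem _ hw)
    · intro w hw v hvw hv
      have hv' : v ∈ v0 :: L' ∨ v ∉ s := hv.imp id fun h8 h9 => h8 (Finset.mem_union_left _ h9)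
      rcases List.mem_cons.1 hw with rfl | hw
      · rw [Function.update_self]
        apply map_mul_inv
        · apply hAt
          rcases hv with h8 | h8
          · exact hLt v h8
          · exact fun h9 => h8 (Finset.mem_union_right _ h9)
        · exact h6 w List.mem_cons_self v hvw hv'
      · rw [Function.update_of_ne (hne w hw)]
        exact h6 w (List.mem_cons_of_mem _ hw) v hvw hv'
    · rw [List.map_cons, List.prod_cons, Function.update_self]
      have e : L'.map (Function.update M v0 (A * M v0)) = L'.map M := by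
        apply List.map_congr_left
        intro w hw
        rw [Function.update_of_ne (hne w hw)]
      rw [e, mul_assoc, ← Matrix.mulVec_mulVec, ← List.prod_cons, ← List.map_cons, h7, hR]
  · -- a new variable
    have hut : u ∈ t := hWt hu
    have huL : u ∉ L := fun h8 => hLt u h8 hut
    have hne : ∀ w ∈ L, w ≠ u := by
      rintro w hw rfl
      exact huL hw
    have hus : u ∉ s := Finset.disjoint_right.1 hst hut
    refine ⟨u :: L, Function.update M u A, List.nodup_cons.2 ⟨huL, h1⟩, ?_,
      List.cons_ne_nil _ _, ?_, ?_, ?_, ?_⟩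
    · intro v hv
      rcases List.mem_cons.1 hv with rfl | hv
      · exact Finset.mem_union_right _ hu
      · exact Finset.mem_union_left _ (h2 v hv)
    · rw [List.length_cons, Nat.add_sub_cancel]
      have hl : 1 ≤ L.length := List.length_pos_iff.2 h3
      calc (V ∪ W).card ≤ V.card + W.card := Finset.card_union_le _ _
        _ ≤ V.card + V.card := by omega
        _ ≤ 2 ^ (L.length - 1) + 2 ^ (L.length - 1) := by omega
        _ = 2 ^ L.length := by
          rw [← two_mul, ← pow_succ']
          congr 1
          omega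
    · intro w hw
      rcases List.mem_cons.1 hw with rfl | hw
      · rw [Function.update_self]
        exact hA
      · rw [Function.update_of_ne (hne w hw)]
        exact h5 w hw
    · intro w hw v hvw hv
      rcases List.mem_cons.1 hw with rfl | hw
      · rw [Function.update_self]
        apply hAt
        rcases hv with h8 | h8
        · exact hLt v ((List.mem_cons.1 h8).resolve_left hvw)
        · exact fun h9 => h8 (Finset.mem_union_right _ h9)
      · rw [Function.update_of_ne (hne w hw)]
        apply h6 w hw v hvw
        rcases hv with h8 | h8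
        · rcases List.mem_cons.1 h8 with rfl | h8
          · exact Or.inr hus
          · exact Or.inl h8
        · exact Or.inr fun h9 => h8 (Finset.mem_union_left _ h9)
    · rw [List.map_cons, List.prod_cons, Function.update_self]
      have e : L.map (Function.update M u A) = L.map M := by
        apply List.map_congr_left
        intro w hw
        rw [Function.update_of_ne (hne w hw)]
      rw [e, ← Matrix.mulVec_mulVec, h7, hR]

theorem cat_rof (hp : ∀ (s : Finset (Fin n)) (f : MvPolynomial (Fin n) ℂ), Rof s f → f ≠ 0 →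
    aeval p f ≠ 0) (S : Finset (Fin n)) {s : Finset (Fin n)} {f : MvPolynomial (Fin n) ℂ}
    (hf : Rof s f) : ∀ V ⊆ s, V.Nonempty → Cat p s V (res p S f) := by
  classical
  induction hf with
  | const c =>
    intro V hV hne
    rw [Finset.subset_empty] at hV
    exact absurd hV hne.ne_empty
  | leaf i u =>
    intro V hV hne
    have hVi : V = {i} := (Finset.subset_singleton_iff.1 hV).resolve_left hne.ne_empty
    subst hVi
    refine ⟨[i], fun _ => uni (res p S (Polynomial.aeval (X i) u)), List.nodup_singleton i,
      fun v hv => Finset.mem_singleton.2 (List.mem_singleton.1 hv), List.cons_ne_nil _ _, ?_, ?_,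
      ?_, ?_⟩
    · rw [Finset.card_singleton, List.length_singleton]
      norm_num
    · intro w _
      rw [uni_det, map_one]
      exact one_ne_zero
    · intro w hw v hvw _
      apply uni_map
      rw [List.mem_singleton] at hw
      subst hw
      exact EA_res_rof p S (Rof.leaf w u) fun h => hvw (Finset.mem_singleton.1 h)
    · rw [List.map_singleton, List.prod_singleton, uni_mulVec, zero_add]
  | @add s t f g hst hf hg ihf ihg =>
    intro V hV hne
    have hVe : V = (V ∩ s) ∪ (V ∩ t) := by
      rw [← Finset.inter_union_distrib_left, Finset.inter_eq_left.2 hV]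
    rcases le_total (V ∩ t).card (V ∩ s).card with hc | hc
    · have hne' : (V ∩ s).Nonempty := by
        rw [Finset.nonempty_iff_ne_empty]
        intro h0
        rw [h0, Finset.card_empty, Nat.le_zero, Finset.card_eq_zero] at hc
        rw [h0, hc, Finset.empty_union] at hVe
        exact hne.ne_empty hVe
      rw [hVe]
      refine Cat.step p hst Finset.inter_subset_right Finset.inter_subset_right hc
        (ihf _ Finset.inter_subset_right hne') (uni (res p S g)) ?_ ?_ ?_
      · rw [uni_det, map_one]
        exact one_ne_zero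
      · intro v hv
        exact uni_map p _ _ (EA_res_rof p S hg hv)
      · rw [uni_mulVec, map_add]
    · have hne' : (V ∩ t).Nonempty := by
        rw [Finset.nonempty_iff_ne_empty]
        intro h0
        rw [h0, Finset.card_empty, Nat.le_zero, Finset.card_eq_zero] at hc
        rw [h0, hc, Finset.empty_union] at hVe
        exact hne.ne_empty hVe
      rw [hVe, Finset.union_comm s t, Finset.union_comm (V ∩ s)]
      refine Cat.step p hst.symm Finset.inter_subset_right Finset.inter_subset_right hc
        (ihg _ Finset.inter_subset_right hne') (uni (res p S f)) ?_ ?_ ?_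
      · rw [uni_det, map_one]
        exact one_ne_zero
      · intro v hv
        exact uni_map p _ _ (EA_res_rof p S hf hv)
      · rw [uni_mulVec, map_add, add_comm]
  | @mul s t f g hst hf hg ihf ihg =>
    intro V hV hne
    by_cases hfg : f * g = 0
    · rw [hfg, map_zero]
      exact Cat.inv p hne fun v _ => map_zero _
    have hf0 : f ≠ 0 := left_ne_zero_of_mul hfg
    have hg0 : g ≠ 0 := right_ne_zero_of_mul hfg
    have hVe : V = (V ∩ s) ∪ (V ∩ t) := by
      rw [← Finset.inter_union_distrib_left, Finset.inter_eq_left.2 hV]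
    rcases le_total (V ∩ t).card (V ∩ s).card with hc | hc
    · have hne' : (V ∩ s).Nonempty := by
        rw [Finset.nonempty_iff_ne_empty]
        intro h0
        rw [h0, Finset.card_empty, Nat.le_zero, Finset.card_eq_zero] at hc
        rw [h0, hc, Finset.empty_union] at hVe
        exact hne.ne_empty hVe
      rw [hVe]
      refine Cat.step p hst Finset.inter_subset_right Finset.inter_subset_right hc
        (ihf _ Finset.inter_subset_right hne') (dia (res p S g)) ?_ ?_ ?_
      · rw [dia_det, ev_res]
        exact hp _ _ hg hg0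
      · intro v hv
        exact dia_map p _ _ (EA_res_rof p S hg hv)
      · rw [dia_mulVec, map_mul]
    · have hne' : (V ∩ t).Nonempty := by
        rw [Finset.nonempty_iff_ne_empty]
        intro h0
        rw [h0, Finset.card_empty, Nat.le_zero, Finset.card_eq_zero] at hc
        rw [h0, hc, Finset.empty_union] at hVe
        exact hne.ne_empty hVe
      rw [hVe, Finset.union_comm s t, Finset.union_comm (V ∩ s)]
      refine Cat.step p hst.symm Finset.inter_subset_right Finset.inter_subset_right hc
        (ihg _ Finset.inter_subset_right hne') (dia (res p S f)) ?_ ?_ ?_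
      · rw [dia_det, ev_res]
        exact hp _ _ hf hf0
      · intro v hv
        exact dia_map p _ _ (EA_res_rof p S hf hv)
      · rw [dia_mulVec, map_mul, mul_comm]

theorem Cat.rep {s V : Finset (Fin n)} {R : MvPolynomial (Fin n) F} (h : Cat p s V R) :
    ∃ L : List (Fin n), L.Nodup ∧ (∀ v ∈ L, v ∈ V) ∧ L ≠ [] ∧ V.card ≤ 2 ^ (L.length - 1) ∧
      Rep p L R := by
  obtain ⟨L, M, h1, h2, h3, h4, h5, h6, h7⟩ := h
  refine ⟨L, h1, h2, h3, h4, M, ![1, 0], ![0, 1], h5, ?_, ?_, ?_, ?_⟩
  · exact fun w hw v hv hvw => h6 w hw v hvw (Or.inl hv)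
  · intro v _ α
    fin_cases α <;> simp
  · intro v _ α
    fin_cases α <;> simp
  · rw [h7]
    simp [dotProduct, Fin.sum_univ_two]

/-- A polynomial without the variables of the list. -/
theorem rep_const (L : List (Fin n)) {R : MvPolynomial (Fin n) F}
    (hR : ∀ v ∈ L, EA p {v} R = R) : Rep p L R := by
  refine ⟨fun _ => 1, ![R, 0], ![1, 0], ?_, ?_, ?_, ?_, ?_⟩
  · intro w _
    rw [Matrix.det_one, map_one]
    exact one_ne_zero
  · exact fun w _ v _ _ => map_one_inv p v
  · intro v hv α
    fin_cases α
    · exact hR v hv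
    · simp
  · intro v _ α
    fin_cases α <;> simp
  · have e : (L.map fun _ => (1 : Matrix (Fin 2) (Fin 2) (MvPolynomial (Fin n) F))).prod = 1 := by
      apply List.prod_eq_one
      intro x hx
      obtain ⟨w, _, rfl⟩ := List.mem_map.1 hx
      rfl
    rw [e, Matrix.one_mulVec]
    simp [dotProduct, Fin.sum_univ_two]

end Pool.Agent.Helper91.RO
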