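import Mathlib
import Pool.Agent.Helper91.RO.Cat

/-!
# A common sequence of variables for several read-once formulas
-/

set_option autoImplicit false
set_option linter.unusedSectionVars false

namespace Pool.Agent.Helper91.RO

open MvPolynomial

variable {n : ℕ}

/-- Monotone sublists. -/
theorem exists_mono (m : ℕ) : ∀ (a b : ℕ), a + b = m → ∀ l : List (Fin n), l.Nodup →
    2 ^ (a + b) ≤ l.length →
    (∃ l' : List (Fin n), l'.Sublist l ∧ l'.Pairwise (· < ·) ∧ l'.length = a) ∨
    (∃ l' : List (Fin n), l'.Sublist l ∧ l'.Pairwise (· > ·) ∧ l'.length = b) := by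
  induction m with
  | zero =>
    intro a b hab l _ _
    left
    exact ⟨[], List.nil_sublist l, List.Pairwise.nil, by rw [List.length_nil]; omega⟩
  | succ m ih =>
    intro a b hab l hl hlen
    rcases Nat.eq_zero_or_pos a with rfl | ha
    · left
      exact ⟨[], List.nil_sublist l, List.Pairwise.nil, List.length_nil⟩
    rcases Nat.eq_zero_or_pos b with rfl | hb
    · right
      exact ⟨[], List.nil_sublist l, List.Pairwise.nil, List.length_nil⟩
    cases l with
    | nil =>
      rw [List.length_nil] at hlen
      have := Nat.one_le_two_pow (n := a + b)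
      omega
    | cons x t =>
      obtain ⟨hx, ht⟩ := List.nodup_cons.1 hl
      have hsum : (t.filter (fun y => x < y)).length + (t.filter (fun y => ¬ x < y)).length =
          t.length := by
        have := List.length_eq_length_filter_add (l := t) (fun y => decide (x < y))
        rw [this]
        congr 2
        apply List.filter_congr
        intro y _
        exact decide_not
      rw [List.length_cons] at hlen
      have hpow : 2 ^ (a + b) = 2 ^ m + 2 ^ m := by
        rw [hab, pow_succ]; ring
      by_cases h1 : 2 ^ m ≤ (t.filter (fun y => x < y)).length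
      · have hsub : (t.filter (fun y => x < y)).Sublist t := List.filter_sublist
        rcases ih (a - 1) b (by omega) _ (ht.sublist hsub) (by
          have e : a - 1 + b = m := by omega
          rwa [e]) with ⟨l', h2, h3, h4⟩ | ⟨l', h2, h3, h4⟩
        · left
          refine ⟨x :: l', (h2.trans hsub).cons_cons x, ?_, ?_⟩
          · refine List.pairwise_cons.2 ⟨fun y hy => ?_, h3⟩
            have := List.mem_filter.1 (h2.subset hy)
            simpa using this.2
          · rw [List.length_cons, h4]
            omega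
        · right
          exact ⟨l', (h2.trans hsub).trans (List.sublist_cons_self x t), h3, h4⟩
      · have h1' : 2 ^ m ≤ (t.filter (fun y => ¬ x < y)).length := by omega
        have hsub : (t.filter (fun y => ¬ x < y)).Sublist t := List.filter_sublist
        rcases ih a (b - 1) (by omega) _ (ht.sublist hsub) (by
          have e : a + (b - 1) = m := by omega
          rwa [e]) with ⟨l', h2, h3, h4⟩ | ⟨l', h2, h3, h4⟩
        · left
          exact ⟨l', (h2.trans hsub).trans (List.sublist_cons_self x t), h3, h4⟩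
        · right
          refine ⟨x :: l', (h2.trans hsub).cons_cons x, ?_, ?_⟩
          · refine List.pairwise_cons.2 ⟨fun y hy => ?_, h3⟩
            have h5 := List.mem_filter.1 (h2.subset hy)
            have h6 : ¬ x < y := by simpa using h5.2
            have h7 : y ≠ x := fun h => hx (h ▸ h5.1)
            exact lt_of_le_of_ne (not_lt.1 h6) h7
          · rw [List.length_cons, h4]
            omega

theorem totalDegree_map_le' {σ R R' : Type*} [CommSemiring R] [CommSemiring R'] (φ : R →+* R')
    (g : MvPolynomial σ R) : (map φ g).totalDegree ≤ g.totalDegree :=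
  Finset.sup_mono (MvPolynomial.support_map_subset φ g)

variable {F : Type*} [Field F] [Algebra ℂ F] (p : Fin n → F)

theorem rep_mono {N : ℕ} {L : List (Fin n)} (hL : L.Nodup) {R : MvPolynomial (Fin n) F}
    (h : Rep p L R) (hN : 2 ^ (2 * N) ≤ L.length) :
    ∃ L' : List (Fin n), (∀ v ∈ L', v ∈ L) ∧ L'.Pairwise (· < ·) ∧ L'.length = N ∧ Rep p L' R := by
  rcases exists_mono (N + N) N N rfl L hL (by rwa [← two_mul]) with ⟨l, h2, h3, h4⟩ | ⟨l, h2, h3, h4⟩
  · exact ⟨l, fun v hv => h2.subset hv, h3, h4, h.sublist p hL h2⟩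
  · refine ⟨l.reverse, fun v hv => h2.subset (List.mem_reverse.1 hv), ?_, ?_,
      (h.sublist p hL h2).reverse p⟩
    · rw [List.pairwise_reverse]
      exact h3
    · rw [List.length_reverse, h4]

/-- The loss for one formula. -/
def bd (N : ℕ) : ℕ := 2 * 2 ^ (2 ^ (2 * N))

theorem sublist_of_subset {L L' : List (Fin n)} (h : ∀ v ∈ L', v ∈ L) (h1 : L'.Pairwise (· < ·))
    (h2 : L.Pairwise (· < ·)) : L'.Sublist L :=
  List.sublist_of_subperm_of_pairwise
    (List.subperm_of_subset (h1.imp fun h => ne_of_lt h) h) h1 h2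

theorem one_rof (hp : ∀ (s : Finset (Fin n)) (f : MvPolynomial (Fin n) ℂ), Rof s f → f ≠ 0 →
    aeval p f ≠ 0) (S : Finset (Fin n)) {s : Finset (Fin n)} {f : MvPolynomial (Fin n) ℂ}
    (hf : Rof s f) {N : ℕ} {L : List (Fin n)} (hL : L.Pairwise (· < ·)) (hN : bd N ≤ L.length) :
    ∃ L' : List (Fin n), L'.Sublist L ∧ L'.Pairwise (· < ·) ∧ L'.length = N ∧
      Rep p L' (res p S f) := by
  classical
  have hnd : L.Nodup := hL.imp fun h => ne_of_lt h
  set Y := 2 ^ (2 ^ (2 * N)) with hY
  have hsum : (L.filter (fun y => y ∉ s)).length + (L.filter (fun y => y ∈ s)).length =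
      L.length := by
    have := List.length_eq_length_filter_add (l := L) (fun y => decide (y ∉ s))
    rw [this]
    congr 2
    apply List.filter_congr
    intro y _
    simp
  have hbd : bd N = 2 * Y := rfl
  by_cases h1 : Y ≤ (L.filter (fun y => y ∉ s)).length
  · have hNY : N ≤ Y := by
      have e1 : 2 * N < 2 ^ (2 * N) := Nat.lt_two_pow_self
      have e2 : 2 ^ (2 * N) < Y := Nat.lt_two_pow_self
      omega
    have hsub : ((L.filter (fun y => y ∉ s)).take N).Sublist L :=
      (List.take_sublist _ _).trans List.filter_sublist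
    refine ⟨(L.filter (fun y => y ∉ s)).take N, hsub, hL.sublist hsub, ?_, ?_⟩
    · rw [List.length_take]
      omega
    · apply rep_const
      intro v hv
      have h2 := List.mem_filter.1 ((List.take_sublist _ _).subset hv)
      exact EA_res_rof p S hf (by simpa using h2.2)
  · have h2 : Y ≤ (L.filter (fun y => y ∈ s)).length := by omega
    set V : Finset (Fin n) := (L.filter (fun y => y ∈ s)).toFinset with hV
    have hVc : V.card = (L.filter (fun y => y ∈ s)).length :=
      List.toFinset_card_of_nodup (hnd.sublist List.filter_sublist)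
    have hVs : V ⊆ s := by
      intro v hv
      rw [hV, List.mem_toFinset, List.mem_filter] at hv
      simpa using hv.2
    have hVL : ∀ v ∈ V, v ∈ L := by
      intro v hv
      rw [hV, List.mem_toFinset, List.mem_filter] at hv
      exact hv.1
    have hYpos : 0 < Y := Nat.two_pow_pos _
    have hne : V.Nonempty := by
      rw [← Finset.card_pos, hVc]
      omega
    obtain ⟨L1, g1, g2, g3, g4, g5⟩ := (cat_rof p hp S hf V hVs hne).rep
    have h3 : 2 ^ (2 * N) ≤ L1.length := by
      have h4 : 2 ^ (2 ^ (2 * N)) ≤ 2 ^ (L1.length - 1) := by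
        rw [hVc] at g4
        exact h2.trans g4
      have h5 := (Nat.pow_le_pow_iff_right (by norm_num : 1 < 2)).1 h4
      omega
    obtain ⟨L', k1, k2, k3, k4⟩ := rep_mono p g1 g5 h3
    exact ⟨L', sublist_of_subset (fun v hv => hVL v (g2 v (k1 v hv))) k2 hL, k2, k3, k4⟩

theorem many_rof (hp : ∀ (s : Finset (Fin n)) (f : MvPolynomial (Fin n) ℂ), Rof s f → f ≠ 0 →
    aeval p f ≠ 0) (S : Finset (Fin n)) (q : ℕ) : ∀ (f : Fin q → MvPolynomial (Fin n) ℂ)
    (s : Fin q → Finset (Fin n)), (∀ i, Rof (s i) (f i)) → ∀ (N : ℕ) (L : List (Fin n)),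
    L.Pairwise (· < ·) → bd^[q] N ≤ L.length →
    ∃ L' : List (Fin n), L'.Sublist L ∧ L'.Pairwise (· < ·) ∧ L'.length = N ∧
      ∀ i, Rep p L' (res p S (f i)) := by
  induction q with
  | zero =>
    intro f s hf N L hL hN
    refine ⟨L.take N, List.take_sublist N L, hL.sublist (List.take_sublist N L), ?_,
      fun i => i.elim0⟩
    rw [List.length_take]
    exact min_eq_left hN
  | succ q ih =>
    intro f s hf N L hL hN
    rw [Function.iterate_succ_apply] at hN
    obtain ⟨L1, h1, h2, h3, h4⟩ := ih (fun i => f i.castSucc) (fun i => s i.castSucc)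
      (fun i => hf _) (bd N) L hL hN
    obtain ⟨L2, g1, g2, g3, g4⟩ := one_rof p hp S (hf (Fin.last q)) (N := N) h2 h3.ge
    refine ⟨L2, g1.trans h1, g2, g3, ?_⟩
    intro i
    refine Fin.lastCases g4 (fun j => ?_) i
    exact (h4 j).sublist p (h2.imp fun h => ne_of_lt h) g1

/-- The algebraic contradiction. -/
theorem rep_chain {κ : Type*} [Fintype κ] [DecidableEq κ] (δ : ℕ) {L : List (Fin n)}
    (hL : L.Nodup) (R : κ → MvPolynomial (Fin n) F) (hR : ∀ i, Rep p L (R i))
    (G : MvPolynomial κ F) (hG : G.totalDegree ≤ δ)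
    (hlen : (δ + 1) ^ (2 * Fintype.card κ) ≤ L.length)
    (hz : ∀ v ∈ L, EA p {v} (aeval R G) = 0) : aeval R G = 0 := by
  classical
  choose M a b h1 h2 h3 h4 h5 using hR
  set K := FractionRing (MvPolynomial (Fin n) F) with hK
  set θ : MvPolynomial (Fin n) F →+* K := algebraMap _ K with hθ
  have hθi : Function.Injective θ := IsFractionRing.injective _ K
  -- the matrices with some variables specialised
  let MM : Finset (Fin n) → Fin n → κ → Matrix (Fin 2) (Fin 2) (MvPolynomial (Fin n) F) :=
    fun A v i => if v ∈ A then (M i v).map (EA p {v}) else M i v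
  have hMM : ∀ (A : Finset (Fin n)), (∀ v ∈ A, v ∈ L) → ∀ i, ∀ w ∈ L,
      (M i w).map (EA p A) = MM A w i := by
    intro A hA i w hw
    by_cases hwA : w ∈ A
    · have e : MM A w i = (M i w).map (EA p {w}) := if_pos hwA
      rw [e]
      ext x y
      rw [Matrix.map_apply, Matrix.map_apply, ← EA_mem p hwA]
      congr 1
      rw [EA_eq_self]
      intro v hv
      rw [EA_comm]
      by_cases hvw : v = w
      · subst hvw
        rw [EA_EA, Finset.union_idempotent]
      · have e2 := congrFun (congrFun (h2 i w hw v (hA v hv) hvw) x) y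
        rw [Matrix.map_apply] at e2
        rw [e2]
    · have e : MM A w i = M i w := if_neg hwA
      rw [e]
      ext x y
      rw [Matrix.map_apply]
      congr 1
      apply EA_eq_self
      intro v hv
      exact congrFun (congrFun (h2 i w hw v (hA v hv) (fun h => hwA (h ▸ hv))) x) y
  have hval : ∀ A : Finset (Fin n), (∀ v ∈ A, v ∈ L) → EA p A (aeval R G) =
      aeval (fun i => a i ⬝ᵥ ((L.map fun v => MM A v i).prod.mulVec (b i))) G := by
    intro A hA
    rw [MvPolynomial.comp_aeval_apply]
    congr 2
    funext i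
    rw [h5 i]
    have e1 : (L.map fun v => MM A v i) = (L.map (M i)).map fun X => X.map (EA p A) := by
      rw [List.map_map]
      apply List.map_congr_left
      intro w hw
      exact (hMM A hA i w hw).symm
    have e2 : ((L.map (M i)).map fun X => X.map (EA p A)).prod =
        (L.map (M i)).prod.map (EA p A) := by
      have := map_list_prod ((EA p A).toRingHom.mapMatrix (m := Fin 2)) (L.map (M i))
      exact this.symm
    rw [e1, e2, dotProduct, map_sum, dotProduct]
    apply Finset.sum_congr rfl
    intro α _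
    rw [map_mul, EA_eq_self p fun v hv => h3 i v (hA v hv) α, Matrix.mulVec, Matrix.mulVec,
      dotProduct, dotProduct, map_sum]
    congr 1
    apply Finset.sum_congr rfl
    intro β _
    rw [map_mul, EA_eq_self p fun v hv => h4 i v (hA v hv) β]
    rfl
  have hK1 : ∀ A : Finset (Fin n), aeval (fun i => (θ ∘ a i) ⬝ᵥ ((L.map fun v =>
      (MM A v i).map θ).prod.mulVec (θ ∘ b i))) (map (algebraMap F K) G) =
      θ (aeval (fun i => a i ⬝ᵥ ((L.map fun v => MM A v i).prod.mulVec (b i))) G) := by
    intro A
    have e0 : ∀ Z : κ → MvPolynomial (Fin n) F, aeval (fun i => θ (Z i)) (map (algebraMap F K) G) =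
        θ (aeval Z G) := by
      intro Z
      rw [aeval_map_algebraMap]
      exact (MvPolynomial.comp_aeval_apply Z (IsScalarTower.toAlgHom F _ K) G).symm
    rw [← e0]
    congr 2
    funext i
    have e1 : (L.map fun v => (MM A v i).map θ).prod = (L.map fun v => MM A v i).prod.map θ := by
      have := map_list_prod (θ.mapMatrix (m := Fin 2)) (L.map fun v => MM A v i)
      rw [List.map_map] at this
      exact this.symm
    rw [e1, dotProduct, dotProduct, map_sum]
    apply Finset.sum_congr rfl
    intro α _
    rw [map_mul, Matrix.mulVec, Matrix.mulVec, dotProduct, dotProduct, map_sum]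
    congr 1
    apply Finset.sum_congr rfl
    intro β _
    rw [map_mul]
    rfl
  have hMM' : ∀ A v i, (MM A v i).map θ =
      if v ∈ A then ((M i v).map (EA p {v})).map θ else (M i v).map θ := by
    intro A v i
    by_cases hv : v ∈ A
    · simp only [MM, if_pos hv]
    · simp only [MM, if_neg hv]
  have hdeg : (map (algebraMap F K) G).totalDegree ≤ δ := by
    refine le_trans ?_ hG
    exact totalDegree_map_le' _ _
  have main := lin_chain δ L hL (fun v i => (M i v).map θ)
    (fun v i => ((M i v).map (EA p {v})).map θ) ?_ (fun i => θ ∘ a i) (fun i => θ ∘ b i)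
    (map (algebraMap F K) G) hdeg ((finrank_le δ (Fintype.card κ) le_rfl).trans hlen) ?_
  · have e := hK1 ∅
    have e' : ∀ v i, (MM ∅ v i) = M i v := fun v i => if_neg (Finset.notMem_empty v)
    simp only [e'] at e
    rw [e] at main
    have e2 : aeval R G = aeval (fun i => a i ⬝ᵥ ((L.map fun v => M i v).prod.mulVec (b i))) G := by
      congr 2
      funext i
      exact h5 i
    rw [e2]
    exact hθi (main.trans (map_zero θ).symm)
  · intro v hv i h0
    apply h1 i v hv
    have e1 : (((M i v).map (EA p {v})).map θ).det = θ (EA p {v} (M i v).det) := by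
      rw [AlgHom.map_det, RingHom.map_det]
      rfl
    rw [e1] at h0
    have e2 : EA p {v} (M i v).det = 0 := hθi (h0.trans (map_zero θ).symm)
    rw [← ev_EA p {v}, e2, map_zero]
  · rintro A ⟨v, hv, hvA⟩
    have e := hK1 (A.filter (· ∈ L))
    simp only [hMM'] at e
    have hA' : ∀ v ∈ A.filter (· ∈ L), v ∈ L := fun v hv => (Finset.mem_filter.1 hv).2
    rw [← hval _ hA', ← EA_mem p (Finset.mem_filter.2 ⟨hvA, hv⟩), hz v hv, map_zero, map_zero] at e
    rw [← e]
    congr 2
    funext i
    congr 3
    apply List.map_congr_left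
    intro w hw
    by_cases hwA : w ∈ A
    · rw [if_pos hwA, if_pos (Finset.mem_filter.2 ⟨hwA, hw⟩)]
    · rw [if_neg hwA, if_neg fun h => hwA (Finset.mem_filter.1 h).1]

/-- **Bounded support.** A nonzero polynomial of degree at most `δ` in `q` read-once formulas does
not vanish when all but boundedly many variables are specialised to `p`. -/
theorem bounded_support (hp : ∀ (s : Finset (Fin n)) (f : MvPolynomial (Fin n) ℂ), Rof s f →
    f ≠ 0 → aeval p f ≠ 0) {q δ : ℕ} (f : Fin q → MvPolynomial (Fin n) ℂ)
    (s : Fin q → Finset (Fin n)) (hf : ∀ i, Rof (s i) (f i)) (G : MvPolynomial (Fin q) ℂ)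
    (hG : G.totalDegree ≤ δ) (h0 : aeval f G ≠ 0) (J : Finset (Fin n)) :
    ∃ S, J ⊆ S ∧ S.card ≤ J.card + bd^[q] ((δ + 1) ^ (2 * q)) ∧ res p S (aeval f G) ≠ 0 := by
  classical
  have hex : ∃ c : ℕ, ∃ S : Finset (Fin n), J ⊆ S ∧ S.card = c ∧ res p S (aeval f G) ≠ 0 := by
    refine ⟨_, Finset.univ, Finset.subset_univ J, rfl, ?_⟩
    rw [res_univ]
    intro h
    exact h0 (MvPolynomial.map_injective _ (algebraMap ℂ F).injective (h.trans (map_zero _).symm))
  obtain ⟨S, hJS, hSc, hS⟩ := Nat.find_spec hex
  have hmin : ∀ T : Finset (Fin n), J ⊆ T → T.card < S.card → res p T (aeval f G) = 0 := by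
    intro T hT hc
    by_contra hne
    rw [hSc] at hc
    exact Nat.find_min hex hc ⟨T, hT, rfl, hne⟩
  refine ⟨S, hJS, ?_, hS⟩
  by_contra hcon
  push Not at hcon
  have hcard : bd^[q] ((δ + 1) ^ (2 * q)) ≤ ((S \ J).sort (· ≤ ·)).length := by
    rw [Finset.length_sort, Finset.card_sdiff_of_subset hJS]
    omega
  obtain ⟨L, h1, h2, h3, h4⟩ := many_rof p hp S q f s hf ((δ + 1) ^ (2 * q)) _
    (Finset.sortedLT_sort (S \ J)).pairwise hcard
  have hL : ∀ v ∈ L, v ∈ S ∧ v ∉ J := fun v hv =>
    Finset.mem_sdiff.1 ((Finset.mem_sort _).1 (h1.subset hv))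
  have e : res p S (aeval f G) = aeval (fun i => res p S (f i)) (map (algebraMap ℂ F) G) := by
    rw [aeval_map_algebraMap]
    exact MvPolynomial.comp_aeval_apply f (res p S) G
  apply hS
  rw [e]
  refine rep_chain p δ (h2.imp fun h => ne_of_lt h) _ h4 _ ?_ ?_ ?_
  · exact (totalDegree_map_le' _ _).trans hG
  · rw [Fintype.card_fin]
    exact h3.ge
  · intro v hv
    rw [← e, EA_res]
    apply hmin
    · intro x hx
      refine Finset.mem_erase.2 ⟨?_, hJS hx⟩
      rintro rfl
      exact (hL x hv).2 hx
    · exact Finset.card_erase_lt_of_mem (hL v hv).1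

end Pool.Agent.Helper91.RO
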