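import Mathlib
import Pool.Agent.Helper91.RO.Def

/-!
# One curve hits all read-once formulas
-/

set_option autoImplicit false

namespace Pool.Agent.Helper91.RO

open MvPolynomial

variable {n : ℕ}

/-- The product of `w - i` over `s`. -/
noncomputable def DD (s : Finset (Fin n)) : Polynomial ℂ :=
  ∏ i ∈ s, (Polynomial.X - Polynomial.C ((i : ℕ) : ℂ))

theorem DD_ne_zero (s : Finset (Fin n)) : DD s ≠ 0 :=
  Finset.prod_ne_zero_iff.2 fun _ _ => Polynomial.X_sub_C_ne_zero _

theorem DD_union {s t : Finset (Fin n)} (h : Disjoint s t) : DD (s ∪ t) = DD s * DD t :=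
  Finset.prod_union h

theorem DD_coprime {s t : Finset (Fin n)} (h : Disjoint s t) : IsCoprime (DD s) (DD t) := by
  apply IsCoprime.prod_left
  intro i hi
  apply IsCoprime.prod_right
  intro j hj
  apply Polynomial.isCoprime_X_sub_C_of_isUnit_sub
  rw [isUnit_iff_ne_zero, sub_ne_zero]
  intro h2
  have h3 : i = j := Fin.ext (by exact_mod_cast h2)
  subst h3
  exact Finset.disjoint_left.1 h hi hj

/-- `a / W ^ d` has its poles in `s` and vanishes at infinity. -/
def KK (s : Finset (Fin n)) (d : ℕ) (a : Polynomial ℂ) : Prop :=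
  ∃ (m : ℕ) (N : Polynomial ℂ), a * DD s ^ m = N * DD (Finset.univ : Finset (Fin n)) ^ d ∧
    N.degree < (DD s ^ m).degree

theorem KK.const_mul {s : Finset (Fin n)} {d : ℕ} {a : Polynomial ℂ} (h : KK s d a) (c : ℂ) :
    KK s d (Polynomial.C c * a) := by
  obtain ⟨m, N, h1, h2⟩ := h
  refine ⟨m, Polynomial.C c * N, by rw [mul_assoc, h1, mul_assoc], lt_of_le_of_lt ?_ h2⟩
  rw [Polynomial.degree_mul]
  rcases eq_or_ne c 0 with rfl | hc
  · rw [map_zero, Polynomial.degree_zero, WithBot.bot_add]
    exact bot_le
  · rw [Polynomial.degree_C hc, zero_add]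

theorem KK.mono {s t : Finset (Fin n)} {d : ℕ} {a : Polynomial ℂ} (h : KK s d a) (hst : s ⊆ t) :
    KK t d a := by
  classical
  obtain ⟨m, N, h1, h2⟩ := h
  have e : DD t = DD s * DD (t \ s) := by
    rw [← DD_union Finset.disjoint_sdiff, Finset.union_sdiff_of_subset hst]
  refine ⟨m, N * DD (t \ s) ^ m, ?_, ?_⟩
  · rw [e, mul_pow, ← mul_assoc, h1]
    ring
  · rw [e, mul_pow, Polynomial.degree_mul, Polynomial.degree_mul]
    have h3 : (DD (t \ s) ^ m).degree ≠ ⊥ := by
      rw [Ne, Polynomial.degree_eq_bot]
      exact pow_ne_zero _ (DD_ne_zero _)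
    exact WithBot.add_lt_add_right h3 h2

/-- Raising the exponent. -/
theorem KK.up {s : Finset (Fin n)} {d : ℕ} {a : Polynomial ℂ} {m : ℕ} {N : Polynomial ℂ}
    (h1 : a * DD s ^ m = N * DD (Finset.univ : Finset (Fin n)) ^ d)
    (h2 : N.degree < (DD s ^ m).degree) (k : ℕ) :
    a * DD s ^ (m + k) = (N * DD s ^ k) * DD (Finset.univ : Finset (Fin n)) ^ d ∧
      (N * DD s ^ k).degree < (DD s ^ (m + k)).degree := by
  constructor
  · rw [pow_add, ← mul_assoc, h1]
    ring
  · rw [pow_add, Polynomial.degree_mul, Polynomial.degree_mul]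
    have h3 : (DD s ^ k).degree ≠ ⊥ := by
      rw [Ne, Polynomial.degree_eq_bot]
      exact pow_ne_zero _ (DD_ne_zero _)
    exact WithBot.add_lt_add_right h3 h2

theorem KK.add {s : Finset (Fin n)} {d : ℕ} {a b : Polynomial ℂ} (ha : KK s d a)
    (hb : KK s d b) : KK s d (a + b) := by
  obtain ⟨m, N, h1, h2⟩ := ha
  obtain ⟨m', N', h1', h2'⟩ := hb
  obtain ⟨h3, h4⟩ := KK.up h1 h2 m'
  obtain ⟨h5, h6⟩ := KK.up h1' h2' m
  rw [add_comm m' m] at h5 h6
  refine ⟨m + m', N * DD s ^ m' + N' * DD s ^ m, ?_, ?_⟩
  · rw [add_mul, h3, h5, add_mul]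
  · exact lt_of_le_of_lt (Polynomial.degree_add_le _ _) (max_lt h4 h6)

theorem KK.mul {s t : Finset (Fin n)} {d e : ℕ} {a b : Polynomial ℂ} (ha : KK s d a)
    (hb : KK t e b) (hst : Disjoint s t) : KK (s ∪ t) (d + e) (a * b) := by
  obtain ⟨m, N, h1, h2⟩ := ha
  obtain ⟨m', N', h1', h2'⟩ := hb
  obtain ⟨h3, h4⟩ := KK.up h1 h2 m'
  obtain ⟨h5, h6⟩ := KK.up h1' h2' m
  rw [add_comm m' m] at h5 h6
  refine ⟨m + m', (N * DD s ^ m') * (N' * DD t ^ m), ?_, ?_⟩
  · rw [DD_union hst, mul_pow]
    calc a * b * (DD s ^ (m + m') * DD t ^ (m + m')) =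
        (a * DD s ^ (m + m')) * (b * DD t ^ (m + m')) := by ring
      _ = _ := by rw [h3, h5]; ring
  · rw [DD_union hst, mul_pow, Polynomial.degree_mul, Polynomial.degree_mul (p := DD s ^ (m + m'))]
    rcases eq_or_ne (N * DD s ^ m') 0 with h7 | h7
    · rw [h7, Polynomial.degree_zero, WithBot.bot_add, bot_lt_iff_ne_bot, ← Polynomial.degree_mul,
        Ne, Polynomial.degree_eq_bot]
      exact mul_ne_zero (pow_ne_zero _ (DD_ne_zero _)) (pow_ne_zero _ (DD_ne_zero _))
    · have h8 : (N * DD s ^ m').degree ≠ ⊥ := by rwa [Ne, Polynomial.degree_eq_bot]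
      have h9 : (DD t ^ (m + m')).degree ≠ ⊥ := by
        rw [Ne, Polynomial.degree_eq_bot]
        exact pow_ne_zero _ (DD_ne_zero _)
      calc (N * DD s ^ m').degree + (N' * DD t ^ m).degree <
          (N * DD s ^ m').degree + (DD t ^ (m + m')).degree := WithBot.add_lt_add_left h8 h6
        _ < _ := WithBot.add_lt_add_right h9 h4

/-- Disjoint poles do not cancel. -/
theorem KK.disj {s t : Finset (Fin n)} {d : ℕ} {a b : Polynomial ℂ} (ha : KK s d a)
    (hb : KK t d b) (hst : Disjoint s t) (h : a + b = 0) : a = 0 := by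
  obtain ⟨m, N, h1, h2⟩ := ha
  obtain ⟨m', N', h1', h2'⟩ := hb
  have hW : DD (Finset.univ : Finset (Fin n)) ^ d ≠ 0 := pow_ne_zero _ (DD_ne_zero _)
  have h3 : N * DD t ^ m' = -(N' * DD s ^ m) := by
    apply mul_right_cancel₀ hW
    have e : b = -a := by linear_combination h
    rw [e] at h1'
    calc N * DD t ^ m' * DD (Finset.univ : Finset (Fin n)) ^ d =
        (N * DD (Finset.univ : Finset (Fin n)) ^ d) * DD t ^ m' := by ring
      _ = (a * DD s ^ m) * DD t ^ m' := by rw [h1]
      _ = -((-a * DD t ^ m') * DD s ^ m) := by ring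
      _ = _ := by rw [h1']; ring
  have h4 : DD s ^ m ∣ N := by
    have h5 : IsCoprime (DD s ^ m) (DD t ^ m') := (DD_coprime hst).pow
    apply h5.dvd_of_dvd_mul_right
    rw [h3]
    exact (Dvd.intro_left _ rfl).neg_right
  have h5 : N = 0 := Polynomial.eq_zero_of_dvd_of_degree_lt h4 h2
  rw [h5, zero_mul] at h1
  exact (mul_eq_zero.1 h1).resolve_right (pow_ne_zero _ (DD_ne_zero _))

/-- The curve. -/
noncomputable def qq (l : Fin n) : Polynomial ℂ := DD (Finset.univ.erase l)

/-- The surface in the variables `z` (outer) and `w` (inner). -/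
noncomputable def pp (l : Fin n) : Polynomial (Polynomial ℂ) :=
  Polynomial.C (qq l) * Polynomial.X

theorem qq_mul (l : Fin n) : qq l * DD {l} = DD (Finset.univ : Finset (Fin n)) := by
  rw [qq, DD, DD, DD, Finset.prod_singleton, Finset.prod_erase_mul _ _ (Finset.mem_univ l)]

theorem rof_lead {s : Finset (Fin n)} {f : MvPolynomial (Fin n) ℂ} (hf : Rof s f) :
    (∃ c : ℂ, f = C c) ∨ (1 ≤ (aeval pp f).natDegree ∧
      KK s (aeval pp f).natDegree (aeval pp f).leadingCoeff) := by
  induction hf with
  | const c => exact Or.inl ⟨c, rfl⟩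
  | leaf i u =>
    by_cases hu : u.natDegree = 0
    · left
      rw [Polynomial.eq_C_of_natDegree_eq_zero hu]
      refine ⟨u.coeff 0, ?_⟩
      rw [Polynomial.aeval_C, MvPolynomial.algebraMap_eq]
    · right
      have hq : qq i ≠ 0 := DD_ne_zero _
      have hp : (pp i).natDegree = 1 := by
        rw [pp, Polynomial.natDegree_C_mul_X _ hq]
      have hl : (pp i).leadingCoeff = qq i := by
        rw [pp, Polynomial.leadingCoeff_C_mul_X]
      have e : aeval pp (Polynomial.aeval (X i) u : MvPolynomial (Fin n) ℂ) =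
          (u.map (Polynomial.C : ℂ →+* Polynomial ℂ)).comp (pp i) := by
        rw [← Polynomial.aeval_algHom_apply, aeval_X, Polynomial.comp, Polynomial.eval₂_map,
          Polynomial.aeval_def]
        rfl
      have hm : (u.map (Polynomial.C : ℂ →+* Polynomial ℂ)).natDegree = u.natDegree :=
        Polynomial.natDegree_map_eq_of_injective Polynomial.C_injective u
      have hd : (aeval pp (Polynomial.aeval (X i) u : MvPolynomial (Fin n) ℂ)).natDegree =
          u.natDegree := by
        rw [e, Polynomial.natDegree_comp, hp, mul_one, hm]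
      have hlc : (aeval pp (Polynomial.aeval (X i) u : MvPolynomial (Fin n) ℂ)).leadingCoeff =
          Polynomial.C u.leadingCoeff * qq i ^ u.natDegree := by
        rw [e, Polynomial.leadingCoeff_comp (by rw [hp]; exact one_ne_zero), hl, hm,
          Polynomial.leadingCoeff_map_of_injective Polynomial.C_injective]
      refine ⟨by rw [hd]; exact Nat.one_le_iff_ne_zero.2 hu, ?_⟩
      rw [hd, hlc]
      apply KK.const_mul
      refine ⟨u.natDegree, 1, ?_, ?_⟩
      · rw [← mul_pow, qq_mul, one_mul]
      · rw [Polynomial.degree_one, DD, Finset.prod_singleton, Polynomial.degree_pow,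
          Polynomial.degree_X_sub_C, nsmul_one]
        exact_mod_cast Nat.pos_of_ne_zero hu
  | @add s t f g hst hf hg ihf ihg =>
    rw [map_add]
    rcases ihf with ⟨c, rfl⟩ | ⟨h1, h2⟩
    · rcases ihg with ⟨c', rfl⟩ | ⟨h1', h2'⟩
      · left
        exact ⟨c + c', (map_add _ _ _).symm⟩
      · right
        have e : aeval pp (C c : MvPolynomial (Fin n) ℂ) =
            (Polynomial.C (Polynomial.C c) : Polynomial (Polynomial ℂ)) := by
          rw [aeval_C]; rfl
        have hd : (Polynomial.C (Polynomial.C c) : Polynomial (Polynomial ℂ)).degree <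
            (aeval pp g).degree := by
          refine lt_of_le_of_lt Polynomial.degree_C_le ?_
          exact Polynomial.natDegree_pos_iff_degree_pos.1 h1'
        rw [e]
        have hn : (Polynomial.C (Polynomial.C c) + aeval pp g).natDegree =
            (aeval pp g).natDegree := Polynomial.natDegree_eq_of_degree_eq
          (Polynomial.degree_add_eq_right_of_degree_lt hd)
        rw [hn, Polynomial.leadingCoeff_add_of_degree_lt hd]
        exact ⟨h1', h2'.mono Finset.subset_union_right⟩
    · rcases ihg with ⟨c', rfl⟩ | ⟨h1', h2'⟩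
      · right
        have e : aeval pp (C c' : MvPolynomial (Fin n) ℂ) =
            (Polynomial.C (Polynomial.C c') : Polynomial (Polynomial ℂ)) := by
          rw [aeval_C]; rfl
        have hd : (Polynomial.C (Polynomial.C c') : Polynomial (Polynomial ℂ)).degree <
            (aeval pp f).degree := by
          refine lt_of_le_of_lt Polynomial.degree_C_le ?_
          exact Polynomial.natDegree_pos_iff_degree_pos.1 h1
        rw [e]
        have hn : (aeval pp f + Polynomial.C (Polynomial.C c')).natDegree =
            (aeval pp f).natDegree := Polynomial.natDegree_eq_of_degree_eq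
          (Polynomial.degree_add_eq_left_of_degree_lt hd)
        rw [hn, Polynomial.leadingCoeff_add_of_degree_lt' hd]
        exact ⟨h1, h2.mono Finset.subset_union_left⟩
      · right
        have hf0 : aeval pp f ≠ 0 := by
          intro h0
          rw [h0, Polynomial.natDegree_zero] at h1
          omega
        have hg0 : aeval pp g ≠ 0 := by
          intro h0
          rw [h0, Polynomial.natDegree_zero] at h1'
          omega
        rcases lt_trichotomy (aeval pp f).degree (aeval pp g).degree with hd | hd | hd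
        · have hn : (aeval pp f + aeval pp g).natDegree = (aeval pp g).natDegree :=
            Polynomial.natDegree_eq_of_degree_eq (Polynomial.degree_add_eq_right_of_degree_lt hd)
          rw [hn, Polynomial.leadingCoeff_add_of_degree_lt hd]
          exact ⟨h1', h2'.mono Finset.subset_union_right⟩
        · have hnn : (aeval pp g).natDegree = (aeval pp f).natDegree :=
            (Polynomial.natDegree_eq_of_degree_eq hd).symm
          have hne : (aeval pp f).leadingCoeff + (aeval pp g).leadingCoeff ≠ 0 := by
            intro h0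
            rw [hnn] at h2'
            exact hf0 (Polynomial.leadingCoeff_eq_zero.1 (h2.disj h2' hst h0))
          have hdd : (aeval pp f + aeval pp g).degree = (aeval pp f).degree := by
            rw [Polynomial.degree_add_eq_of_leadingCoeff_add_ne_zero hne, hd, max_self]
          have hn : (aeval pp f + aeval pp g).natDegree = (aeval pp f).natDegree :=
            Polynomial.natDegree_eq_of_degree_eq hdd
          have hlc : (aeval pp f + aeval pp g).leadingCoeff =
              (aeval pp f).leadingCoeff + (aeval pp g).leadingCoeff :=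
            Polynomial.leadingCoeff_add_of_degree_eq hd hne
          rw [hn, hlc]
          refine ⟨h1, (h2.mono Finset.subset_union_left).add ?_⟩
          rw [hnn] at h2'
          exact h2'.mono Finset.subset_union_right
        · have hn : (aeval pp f + aeval pp g).natDegree = (aeval pp f).natDegree :=
            Polynomial.natDegree_eq_of_degree_eq (Polynomial.degree_add_eq_left_of_degree_lt hd)
          rw [hn, Polynomial.leadingCoeff_add_of_degree_lt' hd]
          exact ⟨h1, h2.mono Finset.subset_union_left⟩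
  | @mul s t f g hst hf hg ihf ihg =>
    rw [map_mul]
    have e : ∀ c : ℂ, aeval pp (C c : MvPolynomial (Fin n) ℂ) =
        (Polynomial.C (Polynomial.C c) : Polynomial (Polynomial ℂ)) := by
      intro c
      rw [aeval_C]; rfl
    rcases ihf with ⟨c, rfl⟩ | ⟨h1, h2⟩
    · rcases ihg with ⟨c', rfl⟩ | ⟨h1', h2'⟩
      · left
        exact ⟨c * c', (map_mul _ _ _).symm⟩
      · rcases eq_or_ne c 0 with rfl | hc
        · left
          exact ⟨0, by rw [map_zero, zero_mul]⟩
        · right
          have hc' : (Polynomial.C c : Polynomial ℂ) ≠ 0 := Polynomial.C_ne_zero.2 hc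
          rw [e, Polynomial.natDegree_C_mul hc', Polynomial.leadingCoeff_mul,
            Polynomial.leadingCoeff_C]
          exact ⟨h1', (h2'.const_mul c).mono Finset.subset_union_right⟩
    · rcases ihg with ⟨c', rfl⟩ | ⟨h1', h2'⟩
      · rcases eq_or_ne c' 0 with rfl | hc
        · left
          exact ⟨0, by rw [map_zero, mul_zero]⟩
        · right
          have hc' : (Polynomial.C c' : Polynomial ℂ) ≠ 0 := Polynomial.C_ne_zero.2 hc
          rw [e, mul_comm, Polynomial.natDegree_C_mul hc', Polynomial.leadingCoeff_mul,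
            Polynomial.leadingCoeff_C]
          exact ⟨h1, (h2.const_mul c').mono Finset.subset_union_left⟩
      · right
        have hf0 : aeval pp f ≠ 0 := by
          intro h0
          rw [h0, Polynomial.natDegree_zero] at h1
          omega
        have hg0 : aeval pp g ≠ 0 := by
          intro h0
          rw [h0, Polynomial.natDegree_zero] at h1'
          omega
        rw [Polynomial.natDegree_mul hf0 hg0, Polynomial.leadingCoeff_mul]
        exact ⟨by omega, h2.mul h2' hst⟩

/-- Nonzero read-once formulas do not vanish on the surface. -/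
theorem rof_hit {s : Finset (Fin n)} {f : MvPolynomial (Fin n) ℂ} (hf : Rof s f) (h0 : f ≠ 0) :
    aeval pp f ≠ 0 := by
  rcases rof_lead hf with ⟨c, rfl⟩ | ⟨h1, -⟩
  · rw [aeval_C]
    change (Polynomial.C (Polynomial.C c) : Polynomial (Polynomial ℂ)) ≠ 0
    rw [Polynomial.C_ne_zero, Polynomial.C_ne_zero]
    rintro rfl
    exact h0 (map_zero _)
  · intro h2
    rw [h2, Polynomial.natDegree_zero] at h1
    omega

end Pool.Agent.Helper91.RO
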