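import Mathlib
import Pool.Agent.Helper91.RO.Sel
import Pool.Agent.Helper91.RO.Hit
import Pool.Agent.Helper91.SW.Jac
import Pool.Agent.Helper28.D4.Hit
import Pool.Agent.Helper28.D4.Norm
import Pool.Agent.Helper28.VT.W1
import Pool.Agent.Helper93.D4.M2
import Pool.Agent.Helper62.VT.Gen

/-!
# Faithful specialisations for few read-once formulas
-/

set_option autoImplicit false
set_option linter.unusedSectionVars false

namespace Pool.Agent.Helper91.RO

open MvPolynomial

variable {n : ℕ}

section

variable {F : Type*} [Field F] [Algebra ℂ F] (p : Fin n → F)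

theorem pderiv_res (S : Finset (Fin n)) {v : Fin n} (hv : v ∈ S) (f : MvPolynomial (Fin n) ℂ) :
    MvPolynomial.pderiv v (res p S f) = res p S (MvPolynomial.pderiv v f) := by
  induction f using MvPolynomial.induction_on with
  | C a =>
    rw [pderiv_C, map_zero, ← MvPolynomial.algebraMap_eq, AlgHom.commutes,
      IsScalarTower.algebraMap_apply ℂ F (MvPolynomial (Fin n) F), MvPolynomial.algebraMap_eq,
      pderiv_C]
  | add f g hf hg => rw [map_add, map_add, hf, hg, map_add, map_add]
  | mul_X f l hf =>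
    rw [map_mul, Derivation.leibniz, Derivation.leibniz, hf, map_add, smul_eq_mul, smul_eq_mul,
      smul_eq_mul, smul_eq_mul, map_mul, map_mul]
    congr 2
    rw [res, aeval_X]
    by_cases hl : l ∈ S
    · rw [if_pos hl]
      by_cases hlv : l = v
      · subst hlv
        rw [pderiv_X_self, pderiv_X_self, map_one]
      · rw [pderiv_X_of_ne hlv, pderiv_X_of_ne hlv, map_zero]
    · rw [if_neg hl]
      have hlv : l ≠ v := fun h => hl (h ▸ hv)
      rw [pderiv_C, pderiv_X_of_ne hlv, map_zero]

theorem totalDegree_det_le {κ : Type*} (t : ℕ) (x : Fin t → Fin t → κ) :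
    (Matrix.of fun i k => (X (x i k) : MvPolynomial κ ℂ)).det.totalDegree ≤ t := by
  rw [Matrix.det_apply]
  refine totalDegree_finsetSum_le fun σ _ => ?_
  have h1 : (∏ i, (Matrix.of fun i k => (X (x i k) : MvPolynomial κ ℂ)) (σ i) i).totalDegree ≤
      t := by
    refine (totalDegree_finsetProd _ _).trans ?_
    calc ∑ i, ((Matrix.of fun i k => (X (x i k) : MvPolynomial κ ℂ)) (σ i) i).totalDegree ≤
        ∑ _i : Fin t, 1 := Finset.sum_le_sum fun i _ => totalDegree_X_le' _
      _ = t := by rw [Finset.sum_const, Finset.card_univ, Fintype.card_fin, smul_eq_mul, mul_one]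
  rcases Int.units_eq_one_or (Equiv.Perm.sign σ) with h | h
  · rw [h, one_smul]
    exact h1
  · rw [h, Units.neg_smul, one_smul, totalDegree_neg]
    exact h1

/-- Algebraically independent read-once formulas stay independent. -/
theorem algInd_res (hp : ∀ (s : Finset (Fin n)) (f : MvPolynomial (Fin n) ℂ), Rof s f →
    f ≠ 0 → aeval p f ≠ 0) {t : ℕ} (c : Fin t → MvPolynomial (Fin n) ℂ)
    (hc : ∀ i, ∃ s, Rof s (c i)) (hi : AlgebraicIndependent ℂ c) :
    ∃ S : Finset (Fin n), S.card ≤ t + bd^[t * t] ((t + 1) ^ (2 * (t * t))) ∧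
      AlgebraicIndependent F fun i => res p S (c i) := by
  classical
  have : CharZero F := charZero_of_injective_algebraMap (algebraMap ℂ F).injective
  obtain ⟨e, hdet⟩ := Pool.Agent.Helper93.D4.jac_of_algInd c hi
  choose s hs using hc
  let f : Fin (t * t) → MvPolynomial (Fin n) ℂ := fun x =>
    MvPolynomial.pderiv (e (finProdFinEquiv.symm x).2) (c (finProdFinEquiv.symm x).1)
  let G : MvPolynomial (Fin (t * t)) ℂ :=
    (Matrix.of fun i k => (X (finProdFinEquiv (i, k)) : MvPolynomial (Fin (t * t)) ℂ)).det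
  have hfG : aeval f G = (Matrix.of fun i j => MvPolynomial.pderiv (e j) (c i)).det := by
    rw [AlgHom.map_det]
    congr 1
    ext1 i j
    rw [AlgHom.mapMatrix_apply, Matrix.map_apply, Matrix.of_apply, aeval_X, Matrix.of_apply]
    simp only [f, Equiv.symm_apply_apply]
  obtain ⟨S, h1, h2, h3⟩ := bounded_support p hp f (fun x => s (finProdFinEquiv.symm x).1)
    (fun x => (hs _).pderiv _) G (totalDegree_det_le t _) (by rwa [hfG])
    (Finset.univ.image e)
  refine ⟨S, h2.trans (Nat.add_le_add_right ?_ _), ?_⟩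
  · refine Finset.card_image_le.trans ?_
    rw [Finset.card_univ, Fintype.card_fin]
  · apply Pool.Agent.Helper91.SW.algInd_of_minor (fun i => res p S (c i)) e
    rw [hfG, AlgHom.map_det] at h3
    intro h0
    apply h3
    rw [← h0]
    congr 1
    ext1 i j
    rw [AlgHom.mapMatrix_apply, Matrix.map_apply, Matrix.of_apply, Matrix.of_apply, pderiv_res]
    exact h1 (Finset.mem_image_of_mem e (Finset.mem_univ j))

end

theorem le_bd (N : ℕ) : N ≤ bd N := by
  have e1 : 2 * N < 2 ^ (2 * N) := Nat.lt_two_pow_self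
  have e2 : 2 ^ (2 * N) < 2 ^ (2 ^ (2 * N)) := Nat.lt_two_pow_self
  rw [bd]
  omega

theorem bd_mono : Monotone bd := by
  intro a b hab
  rw [bd, bd]
  apply Nat.mul_le_mul_left
  apply Nat.pow_le_pow_right (by norm_num)
  apply Nat.pow_le_pow_right (by norm_num)
  omega

theorem bd_iter_le {q q' N N' : ℕ} (hq : q ≤ q') (hN : N ≤ N') : bd^[q] N ≤ bd^[q'] N' := by
  calc bd^[q] N ≤ bd^[q] N' := bd_mono.iterate q hN
    _ ≤ bd^[q'] N' := Function.monotone_iterate_of_id_le (fun N => le_bd N) hq N'

/-- The number of vectors. -/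
def KR (M : ℕ) : ℕ := M + bd^[M * M] ((M + 1) ^ (2 * (M * M))) + 1

/-- The field of the surface. -/
abbrev FF := FractionRing (Polynomial (Polynomial ℂ))

/-- The surface as a point over the field. -/
noncomputable def pF (l : Fin n) : FF := algebraMap (Polynomial (Polynomial ℂ)) FF (pp l)

theorem pF_hit (s : Finset (Fin n)) (f : MvPolynomial (Fin n) ℂ) (hf : Rof s f) (h0 : f ≠ 0) :
    aeval (pF : Fin n → FF) f ≠ 0 := by
  have e : aeval (pF : Fin n → FF) f = algebraMap (Polynomial (Polynomial ℂ)) FF (aeval pp f) :=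
    (MvPolynomial.comp_aeval_apply pp
      (IsScalarTower.toAlgHom ℂ (Polynomial (Polynomial ℂ)) FF) f).symm
  rw [e]
  intro h
  exact rof_hit hf h0 (IsFractionRing.injective (Polynomial (Polynomial ℂ)) FF
    (h.trans (map_zero _).symm))

open Pool.Agent.Helper28.D4 (G map_G)
open Pool.Agent.Helper62.VT (spec)

theorem exists_phi {K : ℕ} (S : Finset (Fin n)) (hS : S.card ≤ K) :
    ∃ φ : MvPolynomial (Option (Fin (K + 1) ⊕ Fin (K + 1))) ℂ →ₐ[ℂ] MvPolynomial (Fin n) FF,
      ∀ f, φ (spec n (K + 1) (fun _ => Polynomial.X) f) = res pF S f := by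
  classical
  have hcard : Fintype.card S ≤ Fintype.card (Fin K) := by
    rw [Fintype.card_coe, Fintype.card_fin]
    exact hS
  obtain ⟨ι⟩ := Function.Embedding.nonempty_of_card_le hcard
  let Z : FF := algebraMap (Polynomial (Polynomial ℂ)) FF Polynomial.X
  let W : FF := algebraMap (Polynomial (Polynomial ℂ)) FF (Polynomial.C Polynomial.X)
  let z : Fin K → MvPolynomial (Fin n) FF := Function.extend ι
    (fun s => C (algebraMap ℂ FF (Pool.Agent.Helper28.VT.kap n s.1)⁻¹) * (X s.1 - C (pF s.1))) 0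
  let w : Fin K → MvPolynomial (Fin n) FF := Function.extend ι
    (fun s => C (algebraMap ℂ FF ((s.1 : ℕ) : ℂ))) 0
  let zz : Fin (K + 1) → MvPolynomial (Fin n) FF :=
    Fin.snoc (α := fun _ => MvPolynomial (Fin n) FF) z (C Z)
  let ww : Fin (K + 1) → MvPolynomial (Fin n) FF :=
    Fin.snoc (α := fun _ => MvPolynomial (Fin n) FF) w (C W)
  let φ : MvPolynomial (Option (Fin (K + 1) ⊕ Fin (K + 1))) ℂ →ₐ[ℂ] MvPolynomial (Fin n) FF :=
    aeval fun o => o.elim 0 (Sum.elim zz ww)
  refine ⟨φ, fun f => ?_⟩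
  have h : φ.comp (spec n (K + 1) (fun _ => Polynomial.X)) = res pF S := by
    apply MvPolynomial.algHom_ext
    intro l
    rw [AlgHom.comp_apply, spec, aeval_X, Polynomial.aeval_X, map_add]
    have e1 : φ (G n (K + 1) (fun j => X (some (Sum.inl j))) (fun j => X (some (Sum.inr j))) l) =
        G n (K + 1) zz ww l := by
      have := map_G φ.toRingHom (fun j => X (some (Sum.inl j)))
        (fun j => X (some (Sum.inr j))) l
      refine this.trans ?_
      change G n (K + 1) (fun j => φ (X (some (Sum.inl j)))) (fun j => φ (X (some (Sum.inr j)))) l =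
        G n (K + 1) zz ww l
      have e2 : (fun j => φ (X (some (Sum.inl j)))) = zz := by
        funext j
        rw [aeval_X]
        rfl
      have e3 : (fun j => φ (X (some (Sum.inr j)))) = ww := by
        funext j
        rw [aeval_X]
        rfl
      rw [e2, e3]
    have e4 : φ (X none) = 0 := by
      rw [aeval_X]
      rfl
    rw [e1, e4, zero_add, G, Fin.sum_univ_castSucc]
    have e5 : ∀ j : Fin K, zz j.castSucc = z j := fun j => Fin.snoc_castSucc _ _ _
    have e6 : ∀ j : Fin K, ww j.castSucc = w j := fun j => Fin.snoc_castSucc _ _ _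
    have e7 : zz (Fin.last K) = C Z := Fin.snoc_last _ _
    have e8 : ww (Fin.last K) = C W := Fin.snoc_last _ _
    simp only [e5, e6, e7, e8]
    have e9 : (C Z : MvPolynomial (Fin n) FF) * ∏ i' ∈ Finset.univ.erase l,
        (C W - ((i' : ℕ) : MvPolynomial (Fin n) FF)) = C (pF l) := by
      have e10 : ∀ i' : Fin n, (C W - ((i' : ℕ) : MvPolynomial (Fin n) FF)) =
          C (W - ((i' : ℕ) : FF)) := by
        intro i'
        rw [map_sub, map_natCast]
      simp only [e10]
      rw [← map_prod, ← map_mul]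
      congr 1
      rw [pF, pp, qq, DD, map_mul, mul_comm]
      congr 1
      rw [map_prod, map_prod]
      apply Finset.prod_congr rfl
      intro i' _
      rw [map_sub, map_sub]
      congr 1
      rw [Polynomial.C_eq_natCast, Polynomial.C_eq_natCast, map_natCast]
    have e11 : ∑ j : Fin K, z j * ∏ i' ∈ Finset.univ.erase l,
        (w j - ((i' : ℕ) : MvPolynomial (Fin n) FF)) =
        ∑ s : S, (C (algebraMap ℂ FF (Pool.Agent.Helper28.VT.kap n s.1)⁻¹) *
          (X s.1 - C (pF s.1))) * ∏ i' ∈ Finset.univ.erase l,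
          (C (algebraMap ℂ FF ((s.1 : ℕ) : ℂ)) - ((i' : ℕ) : MvPolynomial (Fin n) FF)) := by
      symm
      apply Fintype.sum_of_injective ι ι.injective
      · intro j hj
        have : z j = 0 := Function.extend_apply' _ _ _ (fun ⟨s, hs⟩ => hj ⟨s, hs⟩)
        rw [this, zero_mul]
      · intro s
        have h1 : z (ι s) = _ := ι.injective.extend_apply _ _ s
        have h2 : w (ι s) = _ := ι.injective.extend_apply _ _ s
        rw [h1, h2]
    rw [e9, e11]
    have e12 : ∀ (s : Fin n), (C (algebraMap ℂ FF ((s : ℕ) : ℂ)) : MvPolynomial (Fin n) FF) =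
        ((s : ℕ) : MvPolynomial (Fin n) FF) := fun s => by rw [map_natCast, map_natCast]
    have hzero : ∀ s : S, s.1 ≠ l → ∏ i' ∈ Finset.univ.erase l,
        (C (algebraMap ℂ FF ((s.1 : ℕ) : ℂ)) - ((i' : ℕ) : MvPolynomial (Fin n) FF)) = 0 := by
      intro s hs
      apply Finset.prod_eq_zero (Finset.mem_erase.2 ⟨hs, Finset.mem_univ s.1⟩)
      rw [e12, sub_self]
    rw [res, aeval_X]
    by_cases hl : l ∈ S
    · rw [if_pos hl, Finset.sum_eq_single ⟨l, hl⟩]
      · have e13 : ∏ i' ∈ Finset.univ.erase l,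
            (C (algebraMap ℂ FF ((l : ℕ) : ℂ)) - ((i' : ℕ) : MvPolynomial (Fin n) FF)) =
            C (algebraMap ℂ FF (Pool.Agent.Helper28.VT.kap n l)) := by
          rw [Pool.Agent.Helper28.VT.kap, map_prod, map_prod]
          apply Finset.prod_congr rfl
          intro i' _
          rw [map_sub, map_sub, map_natCast (algebraMap ℂ FF) (i' : ℕ),
            map_natCast (C : FF →+* MvPolynomial (Fin n) FF) (i' : ℕ)]
        dsimp only
        rw [e13, mul_comm (C (algebraMap ℂ FF (Pool.Agent.Helper28.VT.kap n l)⁻¹)), mul_assoc,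
          ← map_mul, ← map_mul, inv_mul_cancel₀ (Pool.Agent.Helper28.VT.kap_ne n l), map_one,
          map_one, mul_one, sub_add_cancel]
      · intro s _ hs
        rw [hzero s (fun h => hs (Subtype.ext h)), mul_zero]
      · intro h
        exact absurd (Finset.mem_univ _) h
    · rw [if_neg hl, Finset.sum_eq_zero, zero_add]
      intro s _
      rw [hzero s (fun h => hl (h ▸ s.2)), mul_zero]
  exact congrArg (fun ψ => ψ f) h

theorem rof_faithful (n M : ℕ) (c : Fin M → MvPolynomial (Fin n) ℂ) (hc : ∀ j, ∃ s, Rof s (c j))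
    (H : MvPolynomial (Fin M) ℂ) (h : aeval c H ≠ 0) :
    spec n (KR M) (fun _ => Polynomial.X) (aeval c H) ≠ 0 := by
  obtain ⟨t, ht, s, hs, B, g, hB, hBg⟩ := Pool.Agent.Helper28.D4.norm_trick (r := M) c (by
    intro s hs
    have : Function.Injective s := fun i j hij => hs.injective (by simp [hij])
    have := Fintype.card_le_of_injective s this
    simp at this) H h
  obtain ⟨S, hS1, hS2⟩ := algInd_res (pF : Fin n → FF) pF_hit (fun i => c (s i))
    (fun i => hc (s i)) hs
  have hS3 : S.card ≤ M + bd^[M * M] ((M + 1) ^ (2 * (M * M))) := by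
    refine hS1.trans (Nat.add_le_add ht (bd_iter_le (Nat.mul_le_mul ht ht) ?_))
    refine (Nat.pow_le_pow_left (Nat.succ_le_succ ht) _).trans (Nat.pow_le_pow_right
      (Nat.succ_pos M) (Nat.mul_le_mul_left 2 (Nat.mul_le_mul ht ht)))
  obtain ⟨φ, hφ⟩ := exists_phi S hS3
  intro h0
  have h1 : res (pF : Fin n → FF) S (aeval c H) = 0 := by
    rw [← hφ]
    have e : spec n (M + bd^[M * M] ((M + 1) ^ (2 * (M * M))) + 1) (fun _ => Polynomial.X)
        (aeval c H) = 0 := h0
    rw [e, map_zero]
  have h2 := congrArg (res (pF : Fin n → FF) S) hBg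
  rw [map_mul, h1, zero_mul, MvPolynomial.comp_aeval_apply] at h2
  have h3 : aeval (fun i => res (pF : Fin n → FF) S (c (s i))) (map (algebraMap ℂ FF) B) = 0 := by
    rw [aeval_map_algebraMap]
    exact h2
  rw [algebraicIndependent_iff] at hS2
  have h4 := hS2 _ h3
  exact hB (MvPolynomial.map_injective _ (algebraMap ℂ FF).injective (h4.trans (map_zero _).symm))

end Pool.Agent.Helper91.RO
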