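import Mathlib
import Pool.Agent.Helper91.RO.Faith
import Pool.Agent.Helper62.VT.Final
import Pool.Agent.Helper62.VT.Separable

/-!
# Products of polynomials in few read-once formulas
-/

set_option autoImplicit false
set_option linter.unusedSectionVars false

namespace Pool.Agent.Helper91.RO

open MvPolynomial
open Pool.Agent.Helper62.VT

variable {n : ℕ}

/-- A read-once formula is a polynomial in the variables of `T` and in few read-once formulas
without these variables. -/
theorem rof_params (T : Finset (Fin n)) {s : Finset (Fin n)} {f : MvPolynomial (Fin n) ℂ}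
    (hf : Rof s f) : ∃ l : List (MvPolynomial (Fin n) ℂ), l.length ≤ 2 ^ T.card ∧
      (∀ g ∈ l, ∃ s', Disjoint s' T ∧ Rof s' g) ∧
      f ∈ Algebra.adjoin ℂ ({g | g ∈ l} ∪ (fun v => (X v : MvPolynomial (Fin n) ℂ)) '' T) := by
  classical
  induction T using Finset.induction_on with
  | empty =>
    refine ⟨[f], ?_, ?_, ?_⟩
    · rw [List.length_singleton, Finset.card_empty, pow_zero]
    · intro g hg
      rw [List.mem_singleton] at hg
      subst hg
      exact ⟨s, Finset.disjoint_empty_right s, hf⟩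
    · exact Algebra.subset_adjoin (Or.inl (List.mem_singleton_self f))
  | insert v T hv ih =>
    obtain ⟨l, h1, h2, h3⟩ := ih
    have h4 : ∀ g : MvPolynomial (Fin n) ℂ, ∃ (u : Polynomial ℂ) (α β : MvPolynomial (Fin n) ℂ),
        g ∈ l → (∃ s', Disjoint s' (insert v T) ∧ Rof s' α) ∧
          (∃ s', Disjoint s' (insert v T) ∧ Rof s' β) ∧ g = Polynomial.aeval (X v) u * α + β := by
      intro g
      by_cases hg : g ∈ l
      · obtain ⟨s', hs', hg'⟩ := h2 g hg
        obtain ⟨u, α, β, hα, hβ, e⟩ := hg'.split_var v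
        have hd : Disjoint (s'.erase v) (insert v T) := by
          rw [Finset.disjoint_insert_right]
          exact ⟨Finset.notMem_erase v s', hs'.mono_left (Finset.erase_subset v s')⟩
        exact ⟨u, α, β, fun _ => ⟨⟨_, hd, hα⟩, ⟨_, hd, hβ⟩, e⟩⟩
      · exact ⟨0, 0, 0, fun h => absurd h hg⟩
    choose u α β h5 using h4
    refine ⟨l.flatMap fun g => [α g, β g], ?_, ?_, ?_⟩
    · have e : (l.flatMap fun g => [α g, β g]).length = 2 * l.length := by
        clear h1 h2 h3 h5
        induction l with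
        | nil => rfl
        | cons a l ih =>
          rw [List.flatMap_cons, List.length_append, ih, List.length_cons]
          simp only [List.length_cons, List.length_nil]
          omega
      rw [e, Finset.card_insert_of_notMem hv, pow_succ, mul_comm]
      exact Nat.mul_le_mul_right 2 h1
    · intro g hg
      obtain ⟨g', hg', hgg⟩ := List.mem_flatMap.1 hg
      rcases List.mem_cons.1 hgg with rfl | hgg
      · exact (h5 g' hg').1
      · rw [List.mem_singleton] at hgg
        subst hgg
        exact (h5 g' hg').2.1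
    · have hle : Algebra.adjoin ℂ ({g | g ∈ l} ∪
          (fun v => (X v : MvPolynomial (Fin n) ℂ)) '' (T : Set (Fin n))) ≤
          Algebra.adjoin ℂ ({g | g ∈ l.flatMap fun g => [α g, β g]} ∪
            (fun v => (X v : MvPolynomial (Fin n) ℂ)) '' ((insert v T : Finset (Fin n)) :
              Set (Fin n))) := by
        apply Algebra.adjoin_le
        rintro g (hg | ⟨w, hw, rfl⟩)
        · have hg' : g ∈ l := hg
          rw [(h5 g hg').2.2]
          have hX : (X v : MvPolynomial (Fin n) ℂ) ∈
              Algebra.adjoin ℂ ({g | g ∈ l.flatMap fun g => [α g, β g]} ∪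
            (fun v => (X v : MvPolynomial (Fin n) ℂ)) '' ((insert v T : Finset (Fin n)) :
              Set (Fin n))) :=
            Algebra.subset_adjoin (Or.inr ⟨v, Finset.mem_coe.2 (Finset.mem_insert_self v T), rfl⟩)
          refine add_mem (mul_mem (polynomial_aeval_mem hX _) ?_) ?_
          · exact Algebra.subset_adjoin (Or.inl (List.mem_flatMap.2 ⟨g, hg', List.mem_cons_self⟩))
          · exact Algebra.subset_adjoin (Or.inl (List.mem_flatMap.2 ⟨g, hg',
              List.mem_cons_of_mem _ (List.mem_singleton_self _)⟩))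
        · exact Algebra.subset_adjoin (Or.inr ⟨w, Finset.mem_coe.2
            (Finset.mem_insert_of_mem (Finset.mem_coe.1 hw)), rfl⟩)
      exact hle h3

/-- Read-once formulas without the chosen variables are constants of the split. -/
theorem split_rof {r : ℕ} {e : Fin r → Fin n} {s : Finset (Fin n)} {f : MvPolynomial (Fin n) ℂ}
    (hf : Rof s f) (hs : Disjoint s (Finset.univ.image e)) :
    split e (X : Fin n → MvPolynomial (Fin n) ℂ) f = C f := by
  have h := hf.congr (split e (X : Fin n → MvPolynomial (Fin n) ℂ))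
    (IsScalarTower.toAlgHom ℂ (MvPolynomial (Fin n) ℂ)
      (MvPolynomial (Fin r) (MvPolynomial (Fin n) ℂ))) (by
      intro i hi
      rw [split_X_not]
      · rfl
      · intro j hj
        exact Finset.disjoint_left.1 hs hi (hj ▸ Finset.mem_image_of_mem e (Finset.mem_univ j)))
  exact h

/-- The parameters of a read-once formula. -/
theorem rof_split {r : ℕ} {e : Fin r → Fin n} (he : Function.Injective e)
    {A : MvPolynomial (Fin n) ℂ} (hA : ∃ s, Rof s A) :
    ∃ γ : Fin (2 ^ r) → MvPolynomial (Fin n) ℂ, (∀ j, ∃ s, Rof s (γ j)) ∧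
      split e (X : Fin n → MvPolynomial (Fin n) ℂ) A ∈
        W r (Algebra.adjoin ℂ (Set.range γ)) := by
  classical
  obtain ⟨s, hs⟩ := hA
  obtain ⟨l, h1, h2, h3⟩ := rof_params (Finset.univ.image e) hs
  have hl : l.length ≤ 2 ^ r := by
    refine h1.trans (Nat.pow_le_pow_right (by norm_num) ?_)
    refine Finset.card_image_le.trans ?_
    rw [Finset.card_univ, Fintype.card_fin]
  let γ : Fin (2 ^ r) → MvPolynomial (Fin n) ℂ := fun j => l.getD j 0
  have hγ : ∀ g ∈ l, ∃ j, γ j = g := by
    intro g hg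
    obtain ⟨i, hi, rfl⟩ := List.getElem_of_mem hg
    refine ⟨⟨i, lt_of_lt_of_le hi hl⟩, ?_⟩
    exact List.getD_eq_getElem l 0 hi
  refine ⟨γ, ?_, ?_⟩
  · intro j
    by_cases hj : (j : ℕ) < l.length
    · have e1 : γ j = l[(j : ℕ)] := List.getD_eq_getElem l 0 hj
      obtain ⟨s', -, hs'⟩ := h2 _ (List.getElem_mem hj)
      exact ⟨s', e1 ▸ hs'⟩
    · have e1 : γ j = 0 := List.getD_eq_default l 0 (not_lt.1 hj)
      exact ⟨∅, e1 ▸ Rof.zero⟩
  · have hle : Algebra.adjoin ℂ ({g | g ∈ l} ∪ (fun v => (X v : MvPolynomial (Fin n) ℂ)) ''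
        ((Finset.univ.image e : Finset (Fin n)) : Set (Fin n))) ≤
        (W r (Algebra.adjoin ℂ (Set.range γ))).comap
          (split e (X : Fin n → MvPolynomial (Fin n) ℂ)) := by
      apply Algebra.adjoin_le
      rintro g (hg | ⟨w, hw, rfl⟩)
      · have hg' : g ∈ l := hg
        obtain ⟨s', hd, hs'⟩ := h2 g hg'
        change split e (X : Fin n → MvPolynomial (Fin n) ℂ) g ∈
          W r (Algebra.adjoin ℂ (Set.range γ))
        rw [split_rof hs' hd]
        obtain ⟨j, hj⟩ := hγ g hg'
        exact C_mem_W (Algebra.subset_adjoin ⟨j, hj⟩)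
      · obtain ⟨j, -, rfl⟩ := Finset.mem_image.1 (Finset.mem_coe.1 hw)
        change split e (X : Fin n → MvPolynomial (Fin n) ℂ) (X (e j)) ∈
          W r (Algebra.adjoin ℂ (Set.range γ))
        rw [split_X_mem he]
        exact X_mem_W _ j
    exact hle h3

/-- The factors. -/
def RofFactors (n κ : ℕ) : Set (MvPolynomial (Fin n) ℂ) :=
  {f | ∃ (A : Fin κ → MvPolynomial (Fin n) ℂ) (F : MvPolynomial (Fin κ) ℂ),
    (∀ j, ∃ s, Rof s (A j)) ∧ f = aeval A F}

theorem rof_hits {m r κ d : ℕ} (P : Fin m → MvPolynomial (Fin n) ℂ)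
    (hP : ∀ i, P i ∈ Submonoid.closure (RofFactors n κ))
    (hr : ∀ s : Fin (r + 1) → Fin m, ¬ AlgebraicIndependent ℂ fun i => P (s i))
    (g : MvPolynomial (Fin m) ℂ) (h0 : aeval P g ≠ 0) (hd : (aeval P g).totalDegree ≤ d) :
    ∃ a ∈ pts n (r + KR ((r + 1) * (κ * 2 ^ r)))
      (fun _ => (Polynomial.X : Polynomial ℤ).eval) (d * (n + 1)),
      eval (fun l => ((a l : ℤ) : ℂ)) (aeval P g) ≠ 0 := by
  classical
  obtain ⟨ε, hε, h⟩ := exists_point (M := KR ((r + 1) * (κ * 2 ^ r))) (D := 1) P hr g h0 hd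
    {fun _ => Polynomial.X} (by
      rintro ε rfl l
      exact Polynomial.natDegree_X_le) (b := d * (n + 1)) (by
      rw [add_comm 1 n]) (by
      intro r' hr' t ht e he
      have hL : ∀ i, ∃ L : List (MvPolynomial (Fin n) ℂ), (∀ q ∈ L, q ∈ RofFactors n κ) ∧
          P (t i) = L.prod := fun i => by
        obtain ⟨L, hL, h⟩ := Submonoid.exists_list_of_mem_closure (hP (t i))
        exact ⟨L, hL, h.symm⟩
      choose L hL1 hL2 using hL
      obtain ⟨B, hB1, hB2, f, mm, hf0, hfL, hfP, -⟩ :=
        exists_factorization (fun i => P (t i)) L hL2 ht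
      refine ⟨B, hB1, hB2, f, mm, hf0, hfP, ?_⟩
      have hfac : ∀ b, f b ∈ RofFactors n κ := by
        intro b
        obtain ⟨i, hi⟩ := hfL b
        exact hL1 i _ hi
      choose A F hA hfA using hfac
      have hγ : ∀ b j, ∃ γ : Fin (2 ^ r') → MvPolynomial (Fin n) ℂ, (∀ j, ∃ s, Rof s (γ j)) ∧
          split e (X : Fin n → MvPolynomial (Fin n) ℂ) (A b j) ∈
            W r' (Algebra.adjoin ℂ (Set.range γ)) :=
        fun b j => rof_split he (hA b j)
      choose γ hγ1 hγ2 using hγ
      let γ' : B → Fin (κ * 2 ^ r') → MvPolynomial (Fin n) ℂ := fun b x =>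
        γ b (finProdFinEquiv.symm x).1 (finProdFinEquiv.symm x).2
      refine ⟨fun b => Set.range (γ' b), ?_, fun _ => Polynomial.X, rfl, ?_⟩
      · intro b k
        rw [hfA b]
        apply coeff_split_aeval
        intro j
        refine W_mono (Algebra.adjoin_mono ?_) (hγ2 b j)
        rintro _ ⟨i, rfl⟩
        refine ⟨finProdFinEquiv (j, i), ?_⟩
        change γ b (finProdFinEquiv.symm (finProdFinEquiv (j, i))).1
          (finProdFinEquiv.symm (finProdFinEquiv (j, i))).2 = γ b j i
        rw [Equiv.symm_apply_apply]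
      · intro T hT
        exact faithful_of_tuple _ (Q := fun f => ∃ s, Rof s f) ⟨∅, Rof.zero⟩ γ'
          (fun b x => hγ1 b _ _) (t := r' + 1)
          (Nat.mul_le_mul (Nat.succ_le_succ hr') (Nat.mul_le_mul_left κ
            (Nat.pow_le_pow_right (by norm_num) hr')))
          (fun c hc H hH => rof_faithful n _ c hc H hH) T hT)
  rw [Set.mem_singleton_iff] at hε
  subst hε
  exact h

end Pool.Agent.Helper91.RO
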